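import Mathlib

/-! Affine maps of the plane given by six coefficients. -/

namespace Pool.Agent.MP_55cbcc_co

/-- An affine map `(x, y) ↦ (c1 + a11 x + a12 y, c2 + a21 x + a22 y)`. -/
@[ext] structure Aff (R : Type) : Type where
  c1 : R
  c2 : R
  a11 : R
  a12 : R
  a21 : R
  a22 : R
deriving DecidableEq

namespace Aff

section Ring

variable {R : Type} [CommRing R]

/-- Composition. -/
def comp (f g : Aff R) : Aff R where
  c1 := f.c1 + f.a11 * g.c1 + f.a12 * g.c2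
  c2 := f.c2 + f.a21 * g.c1 + f.a22 * g.c2
  a11 := f.a11 * g.a11 + f.a12 * g.a21
  a12 := f.a11 * g.a12 + f.a12 * g.a22
  a21 := f.a21 * g.a11 + f.a22 * g.a21
  a22 := f.a21 * g.a12 + f.a22 * g.a22

/-- The identity. -/
def one : Aff R := ⟨0, 0, 1, 0, 0, 1⟩

/-- Value at a point. -/
def pev (f : Aff R) (p : R × R) : R × R :=
  (f.c1 + f.a11 * p.1 + f.a12 * p.2, f.c2 + f.a21 * p.1 + f.a22 * p.2)

/-- Inverse of a similarity whose ratio squared is `1 / r`. -/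
def sinv (r : R) (f : Aff R) : Aff R where
  c1 := -(r * (f.a11 * f.c1 + f.a21 * f.c2))
  c2 := -(r * (f.a12 * f.c1 + f.a22 * f.c2))
  a11 := r * f.a11
  a12 := r * f.a21
  a21 := r * f.a12
  a22 := r * f.a22

/-- The columns are orthogonal of squared length `r`. -/
def Sim (r : R) (f : Aff R) : Prop :=
  f.a11 ^ 2 + f.a21 ^ 2 = r ∧ f.a12 ^ 2 + f.a22 ^ 2 = r ∧ f.a11 * f.a12 + f.a21 * f.a22 = 0

theorem comp_assoc (f g h : Aff R) : (f.comp g).comp h = f.comp (g.comp h) := by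
  ext <;> simp only [comp] <;> ring

@[simp] theorem comp_one (f : Aff R) : f.comp one = f := by
  ext <;> simp [comp, one]

theorem Sim.comp {r r' : R} {f g : Aff R} (hf : f.Sim r) (hg : g.Sim r') :
    (f.comp g).Sim (r * r') := by
  obtain ⟨h1, h2, h3⟩ := hf
  obtain ⟨h4, h5, h6⟩ := hg
  refine ⟨?_, ?_, ?_⟩ <;> simp only [Aff.comp]
  · linear_combination g.a11 ^ 2 * h1 + g.a21 ^ 2 * h2 + 2 * g.a11 * g.a21 * h3 + r * h4
  · linear_combination g.a12 ^ 2 * h1 + g.a22 ^ 2 * h2 + 2 * g.a12 * g.a22 * h3 + r * h5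
  · linear_combination g.a11 * g.a12 * h1 + g.a21 * g.a22 * h2 +
      (g.a11 * g.a22 + g.a21 * g.a12) * h3 + r * h6

end Ring

instance (r : ℚ) (f : Aff ℚ) : Decidable (f.Sim r) := by unfold Sim; infer_instance

/-- Real coefficients from rational ones. -/
def cast (f : Aff ℚ) : Aff ℝ := ⟨f.c1, f.c2, f.a11, f.a12, f.a21, f.a22⟩

theorem cast_comp (f g : Aff ℚ) : (f.comp g).cast = f.cast.comp g.cast := by
  ext <;> simp [cast, comp]

@[simp] theorem cast_one : (one : Aff ℚ).cast = one := by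
  ext <;> simp [cast, one]

theorem Sim.cast {r : ℚ} {f : Aff ℚ} (h : f.Sim r) : f.cast.Sim (r : ℝ) := by
  obtain ⟨h1, h2, h3⟩ := h
  refine ⟨?_, ?_, ?_⟩ <;> simp only [Aff.cast]
  · exact_mod_cast h1
  · exact_mod_cast h2
  · exact_mod_cast h3

/-- The map on the complex plane. -/
def ev (f : Aff ℝ) (z : ℂ) : ℂ :=
  ⟨f.c1 + f.a11 * z.re + f.a12 * z.im, f.c2 + f.a21 * z.re + f.a22 * z.im⟩

@[simp] theorem ev_re (f : Aff ℝ) (z : ℂ) : (f.ev z).re = f.c1 + f.a11 * z.re + f.a12 * z.im := rfl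
@[simp] theorem ev_im (f : Aff ℝ) (z : ℂ) : (f.ev z).im = f.c2 + f.a21 * z.re + f.a22 * z.im := rfl

theorem ev_comp (f g : Aff ℝ) (z : ℂ) : (f.comp g).ev z = f.ev (g.ev z) := by
  apply Complex.ext <;> simp [comp] <;> ring

@[simp] theorem ev_one (z : ℂ) : (one : Aff ℝ).ev z = z := by
  apply Complex.ext <;> simp [one]

theorem continuous_ev (f : Aff ℝ) : Continuous f.ev := by
  have : f.ev = fun z => ((f.c1 + f.a11 * z.re + f.a12 * z.im : ℝ) : ℂ) +
      ((f.c2 + f.a21 * z.re + f.a22 * z.im : ℝ) : ℂ) * Complex.I := by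
    funext z; apply Complex.ext <;> simp
  rw [this]
  fun_prop

theorem ev_lineMap (f : Aff ℝ) (a b : ℂ) (t : ℝ) :
    f.ev (a + t • (b - a)) = f.ev a + t • (f.ev b - f.ev a) := by
  apply Complex.ext <;> simp <;> ring

theorem Sim.normSq_sub {r : ℝ} {f : Aff ℝ} (h : f.Sim r) (z w : ℂ) :
    Complex.normSq (f.ev z - f.ev w) = r * Complex.normSq (z - w) := by
  obtain ⟨h1, h2, h3⟩ := h
  simp only [Complex.normSq_apply, Complex.sub_re, Complex.sub_im, ev_re, ev_im]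
  linear_combination (z.re - w.re) ^ 2 * h1 + (z.im - w.im) ^ 2 * h2 +
    2 * (z.re - w.re) * (z.im - w.im) * h3

theorem Sim.injective {r : ℝ} {f : Aff ℝ} (h : f.Sim r) (hr : r ≠ 0) : Function.Injective f.ev := by
  intro z w e
  have := h.normSq_sub z w
  rw [e, sub_self, map_zero] at this
  have h2 : Complex.normSq (z - w) = 0 := (mul_eq_zero.1 this.symm).resolve_left hr
  exact sub_eq_zero.1 (Complex.normSq_eq_zero.1 h2)

theorem Sim.norm_sub {f : Aff ℝ} (h : f.Sim 1) (z w : ℂ) : ‖f.ev z - f.ev w‖ = ‖z - w‖ := by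
  have := h.normSq_sub z w
  rw [one_mul, Complex.normSq_eq_norm_sq, Complex.normSq_eq_norm_sq] at this
  exact (sq_eq_sq₀ (norm_nonneg _) (norm_nonneg _)).1 this

theorem Sim.rows {f : Aff ℝ} (h : f.Sim 1) :
    f.a11 ^ 2 + f.a12 ^ 2 = 1 ∧ f.a21 ^ 2 + f.a22 ^ 2 = 1 ∧ f.a11 * f.a21 + f.a12 * f.a22 = 0 := by
  obtain ⟨h1, h2, h3⟩ := h
  have e1 : f.a22 = (f.a11 * f.a22 - f.a12 * f.a21) * f.a11 := by
    linear_combination (-f.a22) * h1 + f.a21 * h3
  have e2 : f.a12 = -((f.a11 * f.a22 - f.a12 * f.a21) * f.a21) := by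
    linear_combination (-f.a12) * h1 + f.a11 * h3
  have e3 : (f.a11 * f.a22 - f.a12 * f.a21) ^ 2 = 1 := by
    linear_combination (f.a12 ^ 2 + f.a22 ^ 2) * h1 + h2 - (f.a11 * f.a12 + f.a21 * f.a22) * h3
  generalize f.a11 * f.a22 - f.a12 * f.a21 = d at e1 e2 e3
  refine ⟨?_, ?_, ?_⟩
  · rw [e2]; linear_combination h1 + f.a21 ^ 2 * e3
  · rw [e1]; linear_combination h1 + f.a11 ^ 2 * e3
  · rw [e1, e2]; linear_combination (-(f.a11 * f.a21)) * e3

theorem Sim.ev_sinv {f : Aff ℝ} (h : f.Sim 1) (z : ℂ) : f.ev ((f.sinv 1).ev z) = z := by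
  obtain ⟨h1, h2, h3⟩ := h.rows
  apply Complex.ext <;> simp only [ev_re, ev_im, sinv]
  · linear_combination (z.re - f.c1) * h1 + (z.im - f.c2) * h3
  · linear_combination (z.im - f.c2) * h2 + (z.re - f.c1) * h3

theorem Sim.surjective {f : Aff ℝ} (h : f.Sim 1) : Function.Surjective f.ev :=
  fun z => ⟨_, h.ev_sinv z⟩

/-- The isometry of the plane given by an orthogonal affine map. -/
noncomputable def Sim.iso {f : Aff ℝ} (h : f.Sim 1) : ℂ ≃ᵢ ℂ where
  toEquiv := Equiv.ofBijective f.ev ⟨h.injective one_ne_zero, h.surjective⟩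
  isometry_toFun := Isometry.of_dist_eq fun z w => by
    simp only [dist_eq_norm]; exact h.norm_sub z w

@[simp] theorem Sim.coe_iso {f : Aff ℝ} (h : f.Sim 1) : ⇑h.iso = f.ev := rfl

end Aff

/-- A rational point as a complex number. -/
def cpt (p : ℚ × ℚ) : ℂ := ⟨p.1, p.2⟩

@[simp] theorem cpt_re (p : ℚ × ℚ) : (cpt p).re = p.1 := rfl
@[simp] theorem cpt_im (p : ℚ × ℚ) : (cpt p).im = p.2 := rfl

theorem ev_cast_cpt (f : Aff ℚ) (p : ℚ × ℚ) : f.cast.ev (cpt p) = cpt (f.pev p) := by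
  apply Complex.ext <;> simp [Aff.cast, Aff.pev]

theorem cpt_inj {p q : ℚ × ℚ} (h : cpt p = cpt q) : p = q := by
  have h1 := congrArg Complex.re h
  have h2 := congrArg Complex.im h
  simp only [cpt_re, cpt_im, Rat.cast_inj] at h1 h2
  exact Prod.ext h1 h2

end Pool.Agent.MP_55cbcc_co
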