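import Pool.Agent.MP_55cbcc_co.Line

/-! Infinitely many aspects, and the pieces of the final statement. -/

namespace Pool.Agent.MP_55cbcc_co

open Aff Filter Topology

/-- The rotation of infinite order. -/
noncomputable def om : ℂ := ⟨3 / 5, -4 / 5⟩

theorem pow_mod (k : ℕ) : ∃ x y : ℤ, (⟨3, -4⟩ : ℂ) ^ (k + 1) = ⟨3 + 5 * x, -4 + 5 * y⟩ := by
  induction k with
  | zero => exact ⟨0, 0, by simp⟩
  | succ k ih =>
    obtain ⟨x, y, h⟩ := ih
    refine ⟨3 * x + 4 * y - 2, -4 * x + 3 * y - 4, ?_⟩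
    rw [pow_succ, h]
    apply Complex.ext <;> simp <;> ring

theorem om_pow_ne (k : ℕ) : om ^ (k + 1) ≠ 1 := by
  intro h
  obtain ⟨x, y, e⟩ := pow_mod k
  have h1 : (⟨3, -4⟩ : ℂ) = ((5 : ℝ) : ℂ) * om := by
    apply Complex.ext <;> simp [om] <;> norm_num
  rw [h1, mul_pow, h, mul_one, ← Complex.ofReal_pow] at e
  have h2 := congrArg Complex.im e
  rw [Complex.ofReal_im] at h2
  have h3 : (0 : ℤ) = -4 + 5 * y := by
    simp only at h2
    exact_mod_cast h2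
  omega

theorem om_ne : om ≠ 0 := by
  intro h
  have := congrArg Complex.re h
  simp [om] at this

theorem om_inj {n m : ℕ} (h : (om ^ 2) ^ n = (om ^ 2) ^ m) : n = m := by
  have key : ∀ {n m : ℕ}, n < m → (om ^ 2) ^ n ≠ (om ^ 2) ^ m := by
    intro n m hlt h
    obtain ⟨k, rfl⟩ := Nat.exists_eq_add_of_lt hlt
    apply om_pow_ne (2 * k + 1)
    have h1 : (om ^ 2) ^ n * om ^ (2 * k + 1 + 1) = (om ^ 2) ^ n * 1 := by
      rw [mul_one]
      conv_rhs => rw [h]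
      ring
    exact mul_left_cancel₀ (pow_ne_zero _ (pow_ne_zero _ om_ne)) h1
  rcases lt_trichotomy n m with h1 | h1 | h1
  · exact (key h1 h).elim
  · exact h1
  · exact (key h1 h.symm).elim

theorem alpha34 : (alpha true 3).comp (tau true) = alpha true 4 := by decide +kernel
theorem alpha89 : (alpha true 8).comp (tau true) = alpha true 9 := by decide +kernel

theorem chain (n : ℕ) : ∃ s ∈ TT, partner true s ∈ TT ∧ s.a12 = s.a21 ∧ s.a22 = -s.a11 ∧
    (⟨s.a11, s.a21⟩ : ℂ) ^ 2 = (om ^ 2) ^ n := by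
  induction n with
  | zero =>
    have hf : Fam TT true dz.cast := fam_dz.mono (KK_sub 0)
    refine ⟨_, hf.child_mem 8, by rw [partner, place_comp, alpha89]; exact hf.child_mem 9, ?_⟩
    have e : place dz.cast (alpha true 8) = (infl.comp (dz.comp (alpha true 8))).cast := by
      rw [place, cast_comp, cast_comp]
    have e2 : (infl.comp (dz.comp (alpha true 8))).a11 = 1 ∧
        (infl.comp (dz.comp (alpha true 8))).a12 = 0 ∧
        (infl.comp (dz.comp (alpha true 8))).a21 = 0 ∧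
        (infl.comp (dz.comp (alpha true 8))).a22 = -1 := by decide +kernel
    rw [e]
    simp only [Aff.cast, e2.1, e2.2.1, e2.2.2.1, e2.2.2.2]
    refine ⟨trivial, by simp, ?_⟩
    apply Complex.ext <;> simp [sq]
  | succ n ih =>
    have key : ∀ s, Fam TT true s → s.a12 = s.a21 → s.a22 = -s.a11 →
        (⟨s.a11, s.a21⟩ : ℂ) ^ 2 = (om ^ 2) ^ n →
        ∃ s ∈ TT, partner true s ∈ TT ∧ s.a12 = s.a21 ∧ s.a22 = -s.a11 ∧
          (⟨s.a11, s.a21⟩ : ℂ) ^ 2 = (om ^ 2) ^ (n + 1) := by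
      intro s hf h1 h2 h3
      refine ⟨_, hf.child_mem 3, by rw [partner, place_comp, alpha34]; exact hf.child_mem 4, ?_⟩
      have e2 : (alpha true 3).a11 = -2 / 5 ∧ (alpha true 3).a12 = 1 / 5 ∧
          (alpha true 3).a21 = -1 / 5 ∧ (alpha true 3).a22 = -2 / 5 := by decide +kernel
      have e3 : (⟨(place s (alpha true 3)).a11, (place s (alpha true 3)).a21⟩ : ℂ) =
          ⟨s.a11, s.a21⟩ * om := by
        apply Complex.ext <;>
          simp [place, Aff.comp, Aff.cast, infl, e2.1, e2.2.2.1, h1, h2, om] <;> ring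
      refine ⟨?_, ?_, ?_⟩
      · simp [place, Aff.comp, Aff.cast, infl, e2.1, e2.2.1, e2.2.2.1, e2.2.2.2, h1, h2]
        ring
      · simp [place, Aff.comp, Aff.cast, infl, e2.1, e2.2.1, e2.2.2.1, e2.2.2.2, h1, h2]
        ring
      · rw [e3, mul_pow, h3, pow_succ (om ^ 2)]
    obtain ⟨s, hs, hp, h1, h2, h3⟩ := ih
    rcases lt_or_gt (TT_sim hs) true with h | h
    · exact key s ⟨hs, hp, h⟩ h1 h2 h3
    · apply key (partner true s) ⟨hp, by rwa [partner_partner], by rwa [partner_partner]⟩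
      · simp [partner, Aff.comp, Aff.cast, tau, rho, h1]
      · simp [partner, Aff.comp, Aff.cast, tau, rho, h2]
      · rw [← h3]
        apply Complex.ext <;> simp [partner, Aff.comp, Aff.cast, tau, rho, sq]

theorem diam_T0 {a b : ℂ} (ha : a ∈ T0) (hb : b ∈ T0) (h : Complex.normSq (a - b) = 5) :
    (a = Complex.I ∧ b = 2) ∨ (a = 2 ∧ b = Complex.I) := by
  obtain ⟨a1, a2, a3⟩ := ha
  obtain ⟨b1, b2, b3⟩ := hb
  simp only [Complex.normSq_apply, Complex.sub_re, Complex.sub_im] at h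
  have e1 : (a.re - b.re) * (a.re - b.re) ≤ 4 := by nlinarith
  have e2 : (a.im - b.im) * (a.im - b.im) ≤ 1 := by nlinarith
  have e3 : (a.re - b.re - 2) * (a.re - b.re + 2) = 0 := by linarith
  have e4 : (a.im - b.im - 1) * (a.im - b.im + 1) = 0 := by linarith
  rcases mul_eq_zero.1 e3 with e3 | e3 <;> rcases mul_eq_zero.1 e4 with e4 | e4
  · exfalso; linarith
  · right; constructor <;> apply Complex.ext <;> simp <;> linarith
  · left; constructor <;> apply Complex.ext <;> simp <;> linarith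
  · exfalso; linarith

theorem hyp_sq {s s' : Aff ℝ} (hs : s.Sim 1) (hs' : s'.Sim 1) {v : ℂ}
    (h : s'.ev '' T0 = (fun z => z + v) '' (s.ev '' T0)) :
    (s'.ev Complex.I - s'.ev 2) ^ 2 = (s.ev Complex.I - s.ev 2) ^ 2 := by
  have hI : Complex.I ∈ T0 := ⟨by simp, by simp, by simp⟩
  have h2 : (2 : ℂ) ∈ T0 := ⟨by simp, by simp, by simp⟩
  obtain ⟨_, ⟨a, ha, rfl⟩, ea⟩ := h ▸ Set.mem_image_of_mem s'.ev hI
  obtain ⟨_, ⟨b, hb, rfl⟩, eb⟩ := h ▸ Set.mem_image_of_mem s'.ev h2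
  simp only at ea eb
  have e : s'.ev Complex.I - s'.ev 2 = s.ev a - s.ev b := by rw [← ea, ← eb]; ring
  have e5 : Complex.normSq (a - b) = 5 := by
    have e1 := hs.normSq_sub a b
    have e2 := hs'.normSq_sub Complex.I 2
    rw [e, e1, one_mul, one_mul] at e2
    rw [e2, Complex.normSq_apply]
    simp
    norm_num
  rw [e]
  rcases diam_T0 ha hb e5 with ⟨rfl, rfl⟩ | ⟨rfl, rfl⟩
  · rfl
  · ring

/-- The tiles as sets. -/
def tiles : Set (Set ℂ) := (fun s : Aff ℝ => s.ev '' T0) '' TT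

theorem aspects_infinite :
    ((fun S => {S' ∈ tiles | ∃ v : ℂ, S' = (fun z => z + v) '' S}) '' tiles).Infinite := by
  choose t ht _ h1 h2 h3 using chain
  have hH : ∀ n, ((t n).ev Complex.I - (t n).ev 2) ^ 2 = (2 + Complex.I) ^ 2 * (om ^ 2) ^ n := by
    intro n
    have : (t n).ev Complex.I - (t n).ev 2 = -((2 + Complex.I) * ⟨(t n).a11, (t n).a21⟩) := by
      apply Complex.ext <;> simp [h1, h2] <;> ring
    rw [this, neg_sq, mul_pow, h3]
  refine Set.infinite_of_injective_forall_mem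
    (f := fun n => {S' ∈ tiles | ∃ v : ℂ, S' = (fun z => z + v) '' ((t n).ev '' T0)}) ?_
    (fun n => ⟨_, ⟨t n, ht n, rfl⟩, rfl⟩)
  intro n m e
  have h4 : (t n).ev '' T0 ∈
      {S' ∈ tiles | ∃ v : ℂ, S' = (fun z => z + v) '' ((t n).ev '' T0)} :=
    ⟨⟨t n, ht n, rfl⟩, 0, by simp⟩
  simp only at e
  rw [e] at h4
  obtain ⟨-, v, hv⟩ := h4
  have h5 := hyp_sq (TT_sim (ht m)) (TT_sim (ht n)) hv
  rw [hH, hH] at h5
  have h6 : (2 + Complex.I) ^ 2 ≠ 0 := by
    apply pow_ne_zero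
    intro e
    have := congrArg Complex.re e
    simp at this
  exact om_inj (mul_left_cancel₀ h6 h5)

theorem tiles_countable : tiles.Countable := TT_countable.image _

theorem tiles_disk : ∀ S ∈ tiles, Nonempty (S ≃ₜ Metric.closedBall (0 : ℂ) 1) := by
  rintro _ ⟨s, hs, rfl⟩
  obtain ⟨h, -, h2, -⟩ := exists_homeomorph_image_interior_closure_frontier_eq_unitBall convex_T0
    ⟨g0, interior_maximal O0_sub isOpen_O0 g0_mem⟩ bounded_T0
  rw [isClosed_T0.closure_eq] at h2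
  exact ⟨(((TT_sim hs).iso.toHomeomorph.image T0).symm.trans (h.image T0)).trans
    (Homeomorph.setCongr h2)⟩

theorem tiles_cover : ⋃₀ tiles = Set.univ := by
  refine Set.eq_univ_of_forall fun z => ?_
  obtain ⟨s, hs, v, hv, e⟩ := covered z
  exact ⟨_, ⟨s, hs, rfl⟩, v, hv, e⟩

theorem tiles_disjoint : ∀ S ∈ tiles, ∀ S' ∈ tiles, S ≠ S' →
    Disjoint (interior S) (interior S') := by
  rintro _ ⟨s, hs, rfl⟩ _ ⟨s', hs', rfl⟩ hne
  refine Set.disjoint_left.2 fun z h1 h2 => ?_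
  have e := (TT_sim hs).iso.toHomeomorph.image_interior T0
  change s.ev '' interior T0 = interior (s.ev '' T0) at e
  simp only at h1 h2
  rw [← e] at h1
  obtain ⟨u, hu, rfl⟩ := h1
  obtain ⟨v, hv, e2⟩ := interior_subset h2
  exact TT_dis hs hs' (fun e3 => hne (by rw [e3])) u (interior_T0 hu) v hv e2.symm

theorem exists_sigma : ∃ σ : Set ℂ → ℂ ≃ᵢ ℂ, ∀ s ∈ TT, ⇑(σ (s.ev '' T0)) = s.ev := by
  classical
  refine ⟨fun S => if h : S ∈ tiles then (TT_sim h.choose_spec.1).iso else IsometryEquiv.refl ℂ,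
    fun s hs => ?_⟩
  have h : s.ev '' T0 ∈ tiles := ⟨s, hs, rfl⟩
  simp only [dif_pos h, Sim.coe_iso]
  congr 1
  by_contra hne
  obtain ⟨h1, h2⟩ := h.choose_spec
  simp only at h2
  obtain ⟨v, hv, e⟩ := h2 ▸ Set.mem_image_of_mem (Aff.ev h.choose) (O0_sub g0_mem)
  exact TT_dis h1 hs hne g0 g0_mem v hv e.symm

/-- The two arcs. -/
noncomputable def arcs (i : Fin 2) : Set ℂ := arcPt (![0, 2] i) '' Set.Icc 0 1

theorem arcs_sub (i : Fin 2) : arcs i ⊆ T0 := by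
  rintro _ ⟨u, hu, rfl⟩
  exact arcPt_T0 _ hu.1 hu.2

theorem arcs_homeo (i : Fin 2) : Nonempty (arcs i ≃ₜ Set.Icc (0 : ℝ) 1) := by
  have hc : Continuous fun u : Set.Icc (0 : ℝ) 1 => arcPt (![0, 2] i) u := by
    unfold arcPt; fun_prop
  have hi : Function.Injective fun u : Set.Icc (0 : ℝ) 1 => arcPt (![0, 2] i) u := by
    intro u u' e
    have := congrArg Complex.re e
    apply Subtype.ext
    fin_cases i <;> simp [arcPt, mk, opp] at this
    · exact this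
    · exact this.resolve_right (by norm_num)
  refine ⟨((hc.isClosedEmbedding hi).isEmbedding.toHomeomorph.trans
    (Homeomorph.setCongr ?_)).symm⟩
  rw [arcs, Set.image_eq_range]

theorem arcPt_opp (m : Fin 4) (u : ℝ) : arcPt (opp m) u = arcPt m (1 - u) := by
  rw [arcPt, arcPt, opp_opp]
  apply Complex.ext <;> simp <;> ring

theorem mem_arcs (z : ℂ) :
    z ∈ ⋃ i, arcs i ↔ ∃ m, ∃ u ∈ Set.Icc (0 : ℝ) 1, z = arcPt m u := by
  rw [Set.mem_iUnion]
  constructor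
  · rintro ⟨i, u, hu, rfl⟩
    exact ⟨_, u, hu, rfl⟩
  · rintro ⟨m, u, hu, rfl⟩
    have hu' : 1 - u ∈ Set.Icc (0 : ℝ) 1 := ⟨by linarith [hu.2], by linarith [hu.1]⟩
    fin_cases m
    · exact ⟨0, u, hu, rfl⟩
    · exact ⟨0, 1 - u, hu', (arcPt_opp 0 u).symm⟩
    · exact ⟨1, u, hu, rfl⟩
    · exact ⟨1, 1 - u, hu', (arcPt_opp 2 u).symm⟩

theorem union_arcs {σ : Set ℂ → ℂ ≃ᵢ ℂ} (hσ : ∀ s ∈ TT, ⇑(σ (s.ev '' T0)) = s.ev) :
    ⋃ S ∈ tiles, σ S '' (⋃ i, arcs i) = ⋃₀ lines := by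
  ext z
  rw [mem_lines, Set.mem_iUnion₂]
  constructor
  · rintro ⟨_, ⟨s, hs, rfl⟩, w, hw, rfl⟩
    obtain ⟨m, u, hu, rfl⟩ := (mem_arcs w).1 hw
    exact ⟨s, hs, m, u, hu, by rw [hσ s hs]⟩
  · rintro ⟨s, hs, m, u, hu, rfl⟩
    exact ⟨_, ⟨s, hs, rfl⟩, _, (mem_arcs _).2 ⟨m, u, hu, rfl⟩, by rw [hσ s hs]⟩

theorem lines_curve : ∀ C ∈ lines, Nonempty (C ≃ₜ ℝ) ∧ IsClosed C ∧ ¬ Bornology.IsBounded C := by
  rintro _ ⟨d, rfl⟩
  exact ⟨⟨(line_closedEmbedding d).isEmbedding.toHomeomorph.symm⟩,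
    (line_closedEmbedding d).isClosed_range, line_unbounded d⟩

end Pool.Agent.MP_55cbcc_co
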