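import Pool.Agent.MP_55cbcc_co.Model

/-! Geometry of the model triangle. -/

namespace Pool.Agent.MP_55cbcc_co

open Aff

/-- The closed right triangle with legs 2 and 1. -/
def T0 : Set ℂ := {z | 0 ≤ z.re ∧ 0 ≤ z.im ∧ z.re + 2 * z.im ≤ 2}

/-- The open triangle. -/
def O0 : Set ℂ := {z | 0 < z.re ∧ 0 < z.im ∧ z.re + 2 * z.im < 2}

theorem O0_sub : O0 ⊆ T0 := fun _ h => ⟨h.1.le, h.2.1.le, h.2.2.le⟩

theorem isOpen_O0 : IsOpen O0 := by
  unfold O0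
  simp only [Set.ofPred_and]
  exact (isOpen_lt continuous_const Complex.continuous_re).inter
    ((isOpen_lt continuous_const Complex.continuous_im).inter
      (isOpen_lt (by fun_prop) continuous_const))

theorem isClosed_T0 : IsClosed T0 := by
  unfold T0
  simp only [Set.ofPred_and]
  exact (isClosed_le continuous_const Complex.continuous_re).inter
    ((isClosed_le continuous_const Complex.continuous_im).inter
      (isClosed_le (by fun_prop) continuous_const))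

theorem convex_T0 : Convex ℝ T0 := by
  rintro z ⟨h1, h2, h3⟩ w ⟨h4, h5, h6⟩ a b ha hb hab
  refine ⟨?_, ?_, ?_⟩ <;> simp <;> nlinarith

theorem norm_le_of_T0 {z : ℂ} (h : z ∈ T0) : ‖z‖ ≤ 3 := by
  obtain ⟨h1, h2, h3⟩ := h
  refine (Complex.norm_le_abs_re_add_abs_im z).trans ?_
  rw [abs_of_nonneg h1, abs_of_nonneg h2]
  linarith

theorem bounded_T0 : Bornology.IsBounded T0 :=
  isBounded_iff_forall_norm_le.2 ⟨3, fun _ h => norm_le_of_T0 h⟩

/-- A point well inside the triangle. -/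
noncomputable def g0 : ℂ := ⟨1 / 2, 1 / 3⟩

theorem g0_mem : g0 ∈ O0 := by
  refine ⟨?_, ?_, ?_⟩ <;> simp [g0] <;> norm_num

theorem mem_O0_of_near {u : ℂ} (h : ‖u - g0‖ < 1 / 4) : u ∈ O0 := by
  have h1 := (Complex.abs_re_le_norm (u - g0)).trans_lt h
  have h2 := (Complex.abs_im_le_norm (u - g0)).trans_lt h
  simp only [Complex.sub_re, Complex.sub_im, g0] at h1 h2
  rw [abs_lt] at h1 h2
  refine ⟨?_, ?_, ?_⟩ <;> linarith [h1.1, h1.2, h2.1, h2.2]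

theorem T0_sub_closure : T0 ⊆ closure O0 := by
  intro v hv
  have hc : Continuous (fun t : ℝ => v + t • (g0 - v)) := by fun_prop
  have h0 : Filter.Tendsto (fun t : ℝ => v + t • (g0 - v)) (nhdsWithin 0 (Set.Ioi 0)) (nhds v) := by
    have := hc.tendsto 0
    simp only [zero_smul, add_zero] at this
    exact this.mono_left nhdsWithin_le_nhds
  apply mem_closure_of_tendsto h0
  filter_upwards [Ioo_mem_nhdsGT (show (0 : ℝ) < 1 by norm_num)] with t ht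
  obtain ⟨h1, h2, h3⟩ := hv
  obtain ⟨t1, t2⟩ := ht
  refine ⟨?_, ?_, ?_⟩ <;> simp [g0] <;> nlinarith

theorem exists_near {f : ℂ → ℂ} (hf : Continuous f) {U : Set ℂ} (hU : IsOpen U) {v : ℂ}
    (hv : v ∈ T0) (h : f v ∈ U) : ∃ w ∈ O0, f w ∈ U := by
  obtain ⟨w, h1, h2⟩ := mem_closure_iff.1 (T0_sub_closure hv) (f ⁻¹' U) (hU.preimage hf) h
  exact ⟨w, h2, h1⟩

theorem interior_T0 : interior T0 ⊆ O0 := by
  intro z hz
  obtain ⟨ε, hε, hb⟩ := Metric.isOpen_iff.1 isOpen_interior z hz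
  have key : ∀ d : ℂ, ‖d‖ ≤ 1 → z + (ε / 2 : ℝ) • d ∈ T0 := by
    intro d hd
    apply interior_subset (hb _)
    rw [mem_ball_iff_norm, add_sub_cancel_left, norm_smul, Real.norm_of_nonneg (by linarith)]
    nlinarith
  have h1 := (key (-1) (by simp)).1
  have h2 := (key (-Complex.I) (by simp)).2.1
  have h3 := (key 1 (by simp)).2.2
  simp at h1 h2 h3
  refine ⟨?_, ?_, ?_⟩ <;> linarith

theorem isOpen_image {s : Aff ℝ} (h : s.Sim 1) : IsOpen (s.ev '' O0) :=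
  h.iso.toHomeomorph.isOpenMap _ isOpen_O0

/-- The open triangle of `s` misses the closed triangle of `s'`. -/
def Dis (s s' : Aff ℝ) : Prop := ∀ u ∈ O0, ∀ v ∈ T0, s.ev u ≠ s'.ev v

theorem Dis.symm {s s' : Aff ℝ} (h' : s'.Sim 1) (h : Dis s s') : Dis s' s := by
  intro u hu v hv e
  obtain ⟨w, hw, w', hw', e'⟩ :=
    exists_near s.continuous_ev (isOpen_image h') hv (e ▸ Set.mem_image_of_mem _ hu)
  exact h w hw w' (O0_sub hw') e'.symm

theorem Dis.ne {s s' : Aff ℝ} (h : Dis s s') : s ≠ s' := by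
  rintro rfl
  exact h g0 g0_mem g0 (O0_sub g0_mem) rfl

theorem bary (g : Aff ℚ) (z : ℂ) :
    (g.cast.ev z).re = (1 - z.re / 2 - z.im) * ((g.pev (0, 0)).1 : ℚ) +
      z.re / 2 * ((g.pev (2, 0)).1 : ℚ) + z.im * ((g.pev (0, 1)).1 : ℚ) ∧
    (g.cast.ev z).im = (1 - z.re / 2 - z.im) * ((g.pev (0, 0)).2 : ℚ) +
      z.re / 2 * ((g.pev (2, 0)).2 : ℚ) + z.im * ((g.pev (0, 1)).2 : ℚ) := by
  constructor <;> simp [Aff.cast, Aff.pev] <;> ring

theorem lin_le (g : Aff ℚ) (a b c : ℚ) (h : ∀ v ∈ verts, a * (g.pev v).1 + b * (g.pev v).2 ≤ c)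
    {z : ℂ} (hz : z ∈ T0) : a * (g.cast.ev z).re + b * (g.cast.ev z).im ≤ c := by
  obtain ⟨h1, h2, h3⟩ := hz
  have e0 : ((a * (g.pev (0, 0)).1 + b * (g.pev (0, 0)).2 : ℚ) : ℝ) ≤ c := by
    exact_mod_cast h _ (by simp [verts])
  have e1 : ((a * (g.pev (2, 0)).1 + b * (g.pev (2, 0)).2 : ℚ) : ℝ) ≤ c := by
    exact_mod_cast h _ (by simp [verts])
  have e2 : ((a * (g.pev (0, 1)).1 + b * (g.pev (0, 1)).2 : ℚ) : ℝ) ≤ c := by
    exact_mod_cast h _ (by simp [verts])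
  push_cast at e0 e1 e2
  rw [(bary g z).1, (bary g z).2]
  have l0 : 0 ≤ 1 - z.re / 2 - z.im := by linarith
  have l1 : 0 ≤ z.re / 2 := by linarith
  nlinarith [mul_le_mul_of_nonneg_left e0 l0, mul_le_mul_of_nonneg_left e1 l1,
    mul_le_mul_of_nonneg_left e2 h2]

theorem Sep.not_mem {g : Aff ℚ} (h : Sep g) {z : ℂ} (hz : z ∈ T0) : g.cast.ev z ∉ O0 := by
  rintro ⟨h1, h2, h3⟩
  rcases h with h | h | h
  · have := lin_le g 1 0 0 (fun v hv => by simpa using h v hv) hz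
    push_cast at this; linarith
  · have := lin_le g 0 1 0 (fun v hv => by simpa using h v hv) hz
    push_cast at this; linarith
  · have := lin_le g (-1) (-2) (-2) (fun v hv => by linarith [h v hv]) hz
    push_cast at this; linarith

theorem AllIn.mem {g : Aff ℚ} (h : AllIn g) {z : ℂ} (hz : z ∈ T0) : g.cast.ev z ∈ T0 := by
  have h1 := lin_le g (-1) 0 0 (fun v hv => by linarith [(h v hv).1]) hz
  have h2 := lin_le g 0 (-1) 0 (fun v hv => by linarith [(h v hv).2.1]) hz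
  have h3 := lin_le g 1 2 2 (fun v hv => by linarith [(h v hv).2.2]) hz
  push_cast at h1 h2 h3
  exact ⟨by linarith, by linarith, by linarith⟩

theorem rect_sub {z : ℂ} (h1 : 0 ≤ z.re) (h2 : 0 ≤ z.im) (h3 : z.re ≤ 2) (h4 : z.im ≤ 1) :
    z ∈ T0 ∨ ∃ v ∈ T0, z = (tau true).cast.ev v := by
  by_cases h : z.re + 2 * z.im ≤ 2
  · exact Or.inl ⟨h1, h2, h⟩
  · refine Or.inr ⟨⟨2 - z.re, 1 - z.im⟩, ⟨?_, ?_, ?_⟩, ?_⟩
    · simp only; linarith
    · simp only; linarith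
    · simp only; linarith
    · apply Complex.ext <;> simp [tau, rho, Aff.cast]

theorem alpha_mem (k : Bool) (j : Fin 10) {z : ℂ} (hz : z ∈ T0) :
    (alpha k j).cast.ev z ∈ T0 ∨ ∃ v ∈ T0, (alpha k j).cast.ev z = (tau k).cast.ev v := by
  rcases alpha_sub k j with h | h | ⟨rfl, h⟩
  · exact Or.inl (h.mem hz)
  · refine Or.inr ⟨_, h.mem hz, ?_⟩
    rw [← ev_comp, ← cast_comp, ← Aff.comp_assoc, tau_tau, cast_comp, ev_comp, cast_one, ev_one]
  · have h1 := lin_le _ (-1) 0 0 (fun v hv => by linarith [(h v hv).1]) hz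
    have h2 := lin_le _ 0 (-1) 0 (fun v hv => by linarith [(h v hv).2.1]) hz
    have h3 := lin_le _ 1 0 2 (fun v hv => by linarith [(h v hv).2.2.1]) hz
    have h4 := lin_le _ 0 1 1 (fun v hv => by linarith [(h v hv).2.2.2]) hz
    push_cast at h1 h2 h3 h4
    exact rect_sub (by linarith) (by linarith) (by linarith) (by linarith)

theorem cover_upper (k : Bool) (X Y : ℝ) (h1 : 0 ≤ Y) (h2 : Y ≤ 2 * X) (h3 : X + 2 * Y ≤ 5) :
    ∃ j, ∃ u ∈ T0, (beta k j).cast.ev u = ⟨X, Y⟩ := by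
  by_cases c1 : X ≤ 1
  · refine ⟨0, ⟨Y, 1 - X⟩, ⟨?_, ?_, ?_⟩, ?_⟩
    iterate 3 (simp only; linarith)
    cases k <;> apply Complex.ext <;> simp [beta, Aff.cast]
  by_cases c2 : 1 ≤ Y
  · refine ⟨1, ⟨X - 1, Y - 1⟩, ⟨?_, ?_, ?_⟩, ?_⟩
    iterate 3 (simp only; linarith)
    cases k <;> apply Complex.ext <;> simp [beta, Aff.cast]
  by_cases c3 : 3 ≤ X
  · refine ⟨2, ⟨X - 3, Y⟩, ⟨?_, ?_, ?_⟩, ?_⟩
    iterate 3 (simp only; linarith)
    cases k <;> apply Complex.ext <;> simp [beta, Aff.cast]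
  by_cases c4 : X + 2 * Y ≤ 3
  · refine ⟨3, ⟨X - 1, Y⟩, ⟨?_, ?_, ?_⟩, ?_⟩
    iterate 3 (simp only; linarith)
    cases k <;> apply Complex.ext <;> simp [beta, Aff.cast]
  · refine ⟨4, ⟨3 - X, 1 - Y⟩, ⟨?_, ?_, ?_⟩, ?_⟩
    iterate 3 (simp only; linarith)
    cases k <;> apply Complex.ext <;> simp [beta, Aff.cast]

theorem cover_lower_kite (X Y : ℝ) (h1 : Y ≤ 0) (h2 : -Y ≤ 2 * X) (h3 : X - 2 * Y ≤ 5) :
    ∃ j, ∃ u ∈ T0, (beta false j).cast.ev u = ⟨X, Y⟩ := by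
  by_cases c1 : X ≤ 1
  · refine ⟨5, ⟨-Y, 1 - X⟩, ⟨?_, ?_, ?_⟩, ?_⟩
    iterate 3 (simp only; linarith)
    apply Complex.ext <;> simp [beta, Aff.cast]
  by_cases c2 : Y ≤ -1
  · refine ⟨6, ⟨X - 1, -1 - Y⟩, ⟨?_, ?_, ?_⟩, ?_⟩
    iterate 3 (simp only; linarith)
    apply Complex.ext <;> simp [beta, Aff.cast]
  by_cases c3 : 3 ≤ X
  · refine ⟨7, ⟨X - 3, -Y⟩, ⟨?_, ?_, ?_⟩, ?_⟩
    iterate 3 (simp only; linarith)
    apply Complex.ext <;> simp [beta, Aff.cast]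
  by_cases c4 : 1 ≤ X + 2 * Y
  · refine ⟨8, ⟨3 - X, -Y⟩, ⟨?_, ?_, ?_⟩, ?_⟩
    iterate 3 (simp only; linarith)
    apply Complex.ext <;> simp [beta, Aff.cast]
  · refine ⟨9, ⟨X - 1, Y + 1⟩, ⟨?_, ?_, ?_⟩, ?_⟩
    iterate 3 (simp only; linarith)
    apply Complex.ext <;> simp [beta, Aff.cast]

theorem cover_lower_dom (X Y : ℝ) (h1 : Y ≤ 0) (h2 : -Y ≤ 2 * (5 - X)) (h3 : -X - 2 * Y ≤ 0) :
    ∃ j, ∃ u ∈ T0, (beta true j).cast.ev u = ⟨X, Y⟩ := by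
  by_cases c1 : 4 ≤ X
  · refine ⟨5, ⟨-Y, X - 4⟩, ⟨?_, ?_, ?_⟩, ?_⟩
    iterate 3 (simp only; linarith)
    apply Complex.ext <;> simp [beta, Aff.cast]
  by_cases c2 : Y ≤ -1
  · refine ⟨6, ⟨4 - X, -1 - Y⟩, ⟨?_, ?_, ?_⟩, ?_⟩
    iterate 3 (simp only; linarith)
    apply Complex.ext <;> simp [beta, Aff.cast]
  by_cases c3 : X ≤ 2
  · refine ⟨7, ⟨2 - X, -Y⟩, ⟨?_, ?_, ?_⟩, ?_⟩
    iterate 3 (simp only; linarith)
    apply Complex.ext <;> simp [beta, Aff.cast]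
  by_cases c4 : X - 2 * Y ≤ 4
  · refine ⟨8, ⟨X - 2, -Y⟩, ⟨?_, ?_, ?_⟩, ?_⟩
    iterate 3 (simp only; linarith)
    apply Complex.ext <;> simp [beta, Aff.cast]
  · refine ⟨9, ⟨4 - X, Y + 1⟩, ⟨?_, ?_, ?_⟩, ?_⟩
    iterate 3 (simp only; linarith)
    apply Complex.ext <;> simp [beta, Aff.cast]

theorem cover_of_small (k : Bool) (z : ℂ) (X Y : ℝ) (hz : (Theta k).cast.ev ⟨X, Y⟩ = z)
    (h : ∃ j, ∃ u ∈ T0, (beta k j).cast.ev u = ⟨X, Y⟩) :
    ∃ j, ∃ u ∈ T0, (alpha k j).cast.ev u = z := by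
  obtain ⟨j, u, hu, e⟩ := h
  exact ⟨j, u, hu, by rw [alpha, cast_comp, ev_comp, e, hz]⟩

theorem cover_rect {z : ℂ} (h1 : 0 ≤ z.re) (h2 : 0 ≤ z.im) (h3 : z.re ≤ 2) (h4 : z.im ≤ 1) :
    ∃ j, ∃ u ∈ T0, (alpha true j).cast.ev u = z := by
  apply cover_of_small true z (2 * (2 - z.re) - z.im + 1) (-(2 - z.re) - 2 * z.im + 2)
  · apply Complex.ext <;> simp [Theta, theta, phi, Aff.comp, Aff.cast] <;> ring
  · by_cases c : (2 - z.re) + 2 * z.im ≤ 2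
    · exact cover_upper _ _ _ (by linarith) (by linarith) (by linarith)
    · exact cover_lower_dom _ _ (by linarith) (by linarith) (by linarith)

theorem cover_pair (k h : Bool) {v : ℂ} (hv : v ∈ T0) :
    ∃ j, ∃ u ∈ T0, (alpha k j).cast.ev u = (half k h).cast.ev v := by
  obtain ⟨h1, h2, h3⟩ := hv
  cases k <;> cases h
  · apply cover_of_small false _ (2 * v.re - v.im + 1) (-v.re - 2 * v.im + 2)
    · apply Complex.ext <;> simp [Theta, theta, half, Aff.one, Aff.cast] <;> ring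
    · exact cover_upper _ _ _ (by linarith) (by linarith) (by linarith)
  · apply cover_of_small false _ (2 * v.re - v.im + 1) (-(-v.re - 2 * v.im + 2))
    · apply Complex.ext <;> simp [Theta, theta, half, tau, kap, Aff.cast] <;> ring
    · exact cover_lower_kite _ _ (by linarith) (by linarith) (by linarith)
  · apply cover_rect <;> simp [half, Aff.one, Aff.cast] <;> linarith
  · apply cover_rect <;> simp [half, tau, rho, Aff.cast] <;> linarith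

theorem overlap : ∃ u ∈ O0, ∃ v ∈ T0, (tau false).cast.ev u = (tau true).cast.ev v := by
  refine ⟨⟨1, 1 / 4⟩, ⟨?_, ?_, ?_⟩, ⟨4 / 5, 7 / 20⟩, ⟨?_, ?_, ?_⟩, ?_⟩
  iterate 6 norm_num
  apply Complex.ext <;> simp [tau, kap, rho, Aff.cast] <;> norm_num

end Pool.Agent.MP_55cbcc_co
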