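import Pool.Agent.MP_55cbcc_co.Marks

/-! The marked arcs form finitely many disjoint closed lines. -/

namespace Pool.Agent.MP_55cbcc_co

open Aff Filter Topology

section Generic

theorem flip_zpow {G : Type} [Group G] {a b : G} (ha : a * a = 1) (hb : b * b = 1) (n : ℤ) :
    a * (b * a) ^ n = (b * a) ^ (-n) * a := by
  have ha' : a⁻¹ = a := inv_eq_of_mul_eq_one_right ha
  have hb' : b⁻¹ = b := inv_eq_of_mul_eq_one_right hb
  have h1 : a * (b * a) * a⁻¹ = (b * a)⁻¹ := by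
    rw [mul_inv_rev, hb', mul_assoc, mul_assoc, mul_inv_cancel, mul_one, ha']
  have h2 := conj_zpow (i := n) (a := a) (b := b * a)
  rw [h1, inv_zpow'] at h2
  rw [h2, mul_assoc, inv_mul_cancel, mul_one]

theorem no_flip {D : Type} {a b : Equiv.Perm D} (ha : a * a = 1) (hb : b * b = 1)
    (ha' : ∀ d, a d ≠ d) (hb' : ∀ d, b d ≠ d) (d : D) (n m : ℤ) :
    ((b * a) ^ n) d ≠ a (((b * a) ^ m) d) := by
  intro h
  set f := b * a with hf
  set e := (f ^ m) d with he
  have h1 : (f ^ (n - m)) e = a e := by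
    rw [he, ← Equiv.Perm.mul_apply, ← zpow_add, sub_add_cancel, h]
  have key : ∀ j : ℤ, a ((f ^ j) e) = (f ^ (n - m - j)) e := by
    intro j
    rw [← Equiv.Perm.mul_apply, hf, flip_zpow ha hb, Equiv.Perm.mul_apply, ← hf, ← h1,
      ← Equiv.Perm.mul_apply, ← zpow_add]
    congr 2
    ring
  obtain ⟨j, hj | hj⟩ := Int.even_or_odd' (n - m)
  · apply ha' ((f ^ j) e)
    rw [key, hj]
    congr 2
    ring
  · apply hb' ((f ^ (j + 1)) e)
    have h2 : b * f ^ (j + 1) = a * f ^ j := by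
      rw [add_comm, zpow_add, zpow_one, ← mul_assoc, hf, ← mul_assoc, hb, one_mul]
    rw [← Equiv.Perm.mul_apply, h2, Equiv.Perm.mul_apply, key, hj]
    congr 2
    ring

theorem finite_orbit {D : Type} {f : Equiv.Perm D} {d : D} {n m : ℤ} (hne : n ≠ m)
    (h : (f ^ n) d = (f ^ m) d) : (Set.range fun i : ℤ => (f ^ i) d).Finite := by
  have h1 : (f ^ (n - m)) d = d := by
    rw [sub_eq_neg_add, zpow_add, Equiv.Perm.mul_apply, h, ← Equiv.Perm.mul_apply, ← zpow_add]
    simp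
  have hk : n - m ≠ 0 := sub_ne_zero.2 hne
  refine ((Set.finite_Ico (0 : ℤ) |n - m|).image (fun i : ℤ => (f ^ i) d)).subset ?_
  rintro _ ⟨i, rfl⟩
  refine ⟨i % (n - m), ⟨Int.emod_nonneg _ hk, Int.emod_lt_abs _ hk⟩, ?_⟩
  have h2 := Equiv.Perm.zpow_apply_eq_self_of_apply_eq_self h1 (i / (n - m))
  simp only
  conv_rhs => rw [← Int.emod_add_mul_ediv i (n - m), zpow_add, Equiv.Perm.mul_apply, zpow_mul, h2]

/-- The broken line through a sequence of points. -/
noncomputable def broken (p : ℤ → ℂ) (t : ℝ) : ℂ :=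
  p ⌊t⌋ + Int.fract t • (p (⌊t⌋ + 1) - p ⌊t⌋)

theorem broken_eq (p : ℤ → ℂ) (n : ℤ) {t : ℝ} (ht : t ∈ Set.Icc (n : ℝ) (n + 1)) :
    broken p t = p n + (t - n) • (p (n + 1) - p n) := by
  rcases ht.2.lt_or_eq with h | h
  · have : ⌊t⌋ = n := Int.floor_eq_iff.2 ⟨ht.1, h⟩
    rw [broken, Int.fract, this]
  · have e : t = ((n + 1 : ℤ) : ℝ) := by rw [h]; push_cast; rfl
    rw [broken, e, Int.fract_intCast, Int.floor_intCast]
    simp

theorem continuous_broken (p : ℤ → ℂ) : Continuous (broken p) := by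
  have hl : LocallyFinite (fun n : ℤ => Set.Icc (n : ℝ) (n + 1)) := by
    intro x
    refine ⟨Set.Ioo (x - 1) (x + 1), Ioo_mem_nhds (by linarith) (by linarith), ?_⟩
    refine (Set.finite_Icc (⌊x⌋ - 2) (⌊x⌋ + 2)).subset ?_
    rintro n ⟨y, ⟨h1, h2⟩, h3, h4⟩
    have e1 := Int.floor_le x
    have e2 := Int.lt_floor_add_one x
    constructor
    · have : ((⌊x⌋ - 2 : ℤ) : ℝ) ≤ n := by push_cast; linarith
      exact_mod_cast this
    · have : (n : ℝ) ≤ ((⌊x⌋ + 2 : ℤ) : ℝ) := by push_cast; linarith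
      exact_mod_cast this
  refine hl.continuous (iUnion_Icc_intCast ℝ) (fun _ => isClosed_Icc) fun n => ?_
  have : Continuous fun t : ℝ => p n + (t - n) • (p (n + 1) - p n) := by fun_prop
  exact this.continuousOn.congr fun t ht => broken_eq p n ht

end Generic

/-- A tile with one of its marked points. -/
abbrev Dart : Type := TT × Fin 4

/-- The point of a dart. -/
def Dart.P (d : Dart) : ℂ := pt d.1 d.2

/-- The other end of the arc. -/
def fa (d : Dart) : Dart := (d.1, opp d.2)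

/-- The other tile at the same point. -/
noncomputable def fb (d : Dart) : Dart :=
  (⟨(other d.1.2 d.2).choose, (other d.1.2 d.2).choose_spec.1⟩,
    (other d.1.2 d.2).choose_spec.2.choose)

theorem fb_ne (d : Dart) : (fb d).1 ≠ d.1 := fun e =>
  (other d.1.2 d.2).choose_spec.2.choose_spec.1 (congrArg Subtype.val e)

theorem fb_P (d : Dart) : (fb d).P = d.P := (other d.1.2 d.2).choose_spec.2.choose_spec.2.1

theorem Dart.eq_of {d d' : Dart} (h : d.1 = d'.1) (e : d.P = d'.P) : d = d' := by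
  obtain ⟨s, m⟩ := d
  obtain ⟨s', m'⟩ := d'
  obtain rfl : s = s' := h
  obtain rfl : m = m' := pt_inj s.2 e
  rfl

theorem eq_or_fb {d d' : Dart} (e : d'.P = d.P) : d' = d ∨ d' = fb d := by
  rcases at_most_two d.1.2 d'.1.2 (fb d).1.2 e (fb_P d) with h | h | h
  · exact Or.inl (Dart.eq_of (Subtype.ext h.symm) e)
  · exact (fb_ne d (Subtype.ext h.symm)).elim
  · exact Or.inr (Dart.eq_of (Subtype.ext h) (e.trans (fb_P d).symm))

theorem fb_fb : Function.Involutive fb := by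
  intro d
  rcases eq_or_fb (d := fb d) (d' := d) (fb_P d).symm with h | h
  · exact (fb_ne d (by rw [← h])).elim
  · exact h.symm

theorem fa_fa : Function.Involutive fa := fun d => by simp [fa, opp_opp]

/-- The two involutions as permutations. -/
def pa : Equiv.Perm Dart := fa_fa.toPerm
/-- The two involutions as permutations. -/
noncomputable def pb : Equiv.Perm Dart := fb_fb.toPerm

theorem pa_pa : pa * pa = 1 := Equiv.ext fa_fa
theorem pb_pb : pb * pb = 1 := Equiv.ext fb_fb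
theorem pa_ne (d : Dart) : pa d ≠ d := fun e => opp_ne d.2 (congrArg Prod.snd e)
theorem pb_ne (d : Dart) : pb d ≠ d := fun e => fb_ne d (congrArg Prod.fst e)

/-- The darts along the line through `d`. -/
noncomputable def walk (d : Dart) (n : ℤ) : Dart := ((pb * pa) ^ n) d

theorem walk_zero (d : Dart) : walk d 0 = d := by simp [walk]

theorem walk_succ (d : Dart) (n : ℤ) : walk d (n + 1) = fb (fa (walk d n)) := by
  rw [walk, add_comm, zpow_add, zpow_one]
  rfl

theorem walk_P (d : Dart) (n : ℤ) : (walk d (n + 1)).P = (fa (walk d n)).P := by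
  rw [walk_succ, fb_P]

theorem fb_walk (d : Dart) (n : ℤ) : fb (walk d n) = fa (walk d (n - 1)) := by
  have := walk_succ d (n - 1)
  rw [sub_add_cancel] at this
  rw [this, fb_fb]

theorem walk_ne_fa (d : Dart) (n m : ℤ) : walk d n ≠ fa (walk d m) :=
  no_flip pa_pa pb_pb pa_ne pb_ne d n m

theorem R_fa (d : Dart) : R d.P (fa d).P := ⟨d.1, d.1.2, d.2, rfl, rfl⟩

theorem conn_walk (d : Dart) (n : ℤ) : Conn d.P (walk d n).P := by
  induction n using Int.induction_on with
  | zero => rw [walk_zero]; exact Conn.refl _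
  | succ n ih => rw [walk_P]; exact ih.trans (R_fa _).conn
  | pred n ih =>
    have := walk_P d (-(n : ℤ) - 1)
    rw [sub_add_cancel] at this
    rw [this] at ih
    exact ih.trans (R_fa _).conn.symm

theorem exists_walk (d : Dart) {y : ℂ} (h : Conn d.P y) : ∃ n, y = (walk d n).P := by
  induction h with
  | refl => exact ⟨0, by rw [walk_zero]⟩
  | tail _ h2 ih =>
    obtain ⟨n, hn⟩ := ih
    obtain ⟨s, hs, m, e1, rfl⟩ := h2
    rcases eq_or_fb (d := walk d n) (d' := (⟨s, hs⟩, m)) (e1.symm.trans hn) with h | h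
    · exact ⟨n + 1, by rw [walk_P, ← h]; rfl⟩
    · refine ⟨n - 1, ?_⟩
      rw [fb_walk] at h
      rw [← fa_fa (walk d (n - 1)), ← h]
      rfl

theorem walk_inj (d : Dart) : Function.Injective (walk d) := by
  intro n m h
  by_contra hne
  have hfin : (Set.range fun i => (walk d i).P).Finite := by
    have := (finite_orbit hne h).image Dart.P
    rw [← Set.range_comp] at this
    exact this
  obtain ⟨r, hr⟩ := isBounded_iff_forall_norm_le.1 hfin.isBounded
  obtain ⟨n0, h0⟩ := Set.mem_iUnion.1 d.1.2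
  obtain ⟨n1, h1⟩ := exists_nat_gt (5 / 2 * r)
  obtain ⟨w, hw, hn, hc⟩ := far (max n0 n1)
  obtain ⟨i, hi⟩ := hc _ (KK_mono (le_max_left _ _) h0) d.2
  obtain ⟨l, hl⟩ := exists_walk d hi
  have e1 := hr _ ⟨l, rfl⟩
  have e2 := hn i
  have e3 : (n1 : ℝ) ≤ (max n0 n1 : ℕ) := by exact_mod_cast le_max_right _ _
  simp only at e1
  rw [hl] at e2
  linarith

/-- A point of the arc leaving a dart. -/
noncomputable def Dart.at (d : Dart) (u : ℝ) : ℂ := d.P + u • ((fa d).P - d.P)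

/-- A point of a model arc. -/
noncomputable def arcPt (m : Fin 4) (u : ℝ) : ℂ :=
  cpt (mk m) + u • (cpt (mk (opp m)) - cpt (mk m))

theorem Dart.at_eq (d : Dart) (u : ℝ) : d.at u = d.1.1.ev (arcPt d.2 u) := by
  rw [arcPt, ev_lineMap]; rfl

theorem arcPt_O0 (m : Fin 4) {u : ℝ} (h0 : 0 < u) (h1 : u < 1) : arcPt m u ∈ O0 := by
  fin_cases m <;> refine ⟨?_, ?_, ?_⟩ <;> simp [arcPt, mk, opp] <;> linarith

theorem arcPt_T0 (m : Fin 4) {u : ℝ} (h0 : 0 ≤ u) (h1 : u ≤ 1) : arcPt m u ∈ T0 := by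
  fin_cases m <;> refine ⟨?_, ?_, ?_⟩ <;> simp [arcPt, mk, opp] <;> linarith

theorem arcPt_inj {m m' : Fin 4} {u u' : ℝ} (h0 : 0 < u) (h1 : u < 1) (h0' : 0 ≤ u') (h1' : u' ≤ 1)
    (e : arcPt m u = arcPt m' u') : (m' = m ∧ u' = u) ∨ m' = opp m := by
  have e1 := congrArg Complex.re e
  have e2 := congrArg Complex.im e
  fin_cases m <;> fin_cases m' <;> simp [arcPt, mk, opp] at e1 e2 ⊢ <;> linarith

theorem meet_aux {d d' : Dart} {u u' : ℝ} (h0 : 0 < u) (h1 : u < 1) (h0' : 0 ≤ u') (h1' : u' ≤ 1)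
    (e : d.at u = d'.at u') : (d' = d ∧ u' = u) ∨ d' = fa d := by
  obtain ⟨s, m⟩ := d
  obtain ⟨s', m'⟩ := d'
  rw [Dart.at_eq, Dart.at_eq] at e
  obtain rfl : s = s' := by
    by_contra hne
    exact TT_dis s.2 s'.2 (fun h => hne (Subtype.ext h)) _ (arcPt_O0 m h0 h1) _
      (arcPt_T0 m' h0' h1') e
  rcases arcPt_inj h0 h1 h0' h1' ((TT_sim s.2).injective one_ne_zero e) with ⟨rfl, rfl⟩ | rfl
  · exact Or.inl ⟨rfl, rfl⟩
  · exact Or.inr rfl

theorem meet {d d' : Dart} {u u' : ℝ} (h0 : 0 ≤ u) (h1 : u < 1) (h0' : 0 ≤ u') (h1' : u' < 1)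
    (e : d.at u = d'.at u') : (d' = d ∧ u' = u) ∨ d' = fa d ∨ d' = fb d := by
  rcases h0.lt_or_eq with h | h
  · rcases meet_aux h h1 h0' h1'.le e with h2 | h2
    · exact Or.inl h2
    · exact Or.inr (Or.inl h2)
  · rcases h0'.lt_or_eq with h' | h'
    · rcases meet_aux h' h1' h0 h1.le e.symm with ⟨rfl, rfl⟩ | rfl
      · exact Or.inl ⟨rfl, rfl⟩
      · exact Or.inr (Or.inl (fa_fa _).symm)
    · subst h h'
      simp only [Dart.at, zero_smul, add_zero] at e
      rcases eq_or_fb e.symm with h2 | h2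
      · exact Or.inl ⟨h2, rfl⟩
      · exact Or.inr (Or.inr h2)

/-- The line through a dart. -/
noncomputable def line (d : Dart) : ℝ → ℂ := broken fun n => (walk d n).P

theorem line_eq (d : Dart) (t : ℝ) : line d t = (walk d ⌊t⌋).at (Int.fract t) := by
  rw [line, broken, walk_P]; rfl

theorem line_inj (d : Dart) : Function.Injective (line d) := by
  intro t t' e
  rw [line_eq, line_eq] at e
  rcases meet (Int.fract_nonneg t) (Int.fract_lt_one t) (Int.fract_nonneg t')
    (Int.fract_lt_one t') e with ⟨h1, h2⟩ | h | h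
  · rw [← Int.floor_add_fract t, ← Int.floor_add_fract t', h2, walk_inj d h1]
  · exact (walk_ne_fa d _ _ h).elim
  · rw [fb_walk] at h
    exact (walk_ne_fa d _ _ h).elim

theorem line_preimage (d : Dart) {K : Set ℂ} (hK : Bornology.IsBounded K) :
    Bornology.IsBounded (line d ⁻¹' K) := by
  obtain ⟨r, hr⟩ := isBounded_iff_forall_norm_le.1 hK
  have h1 : {x : Dart | ‖x.1.1.ev g0‖ ≤ r + 6}.Finite := by
    have h2 : ((Subtype.val : TT → Aff ℝ) ⁻¹' {s ∈ TT | ‖s.ev g0‖ ≤ r + 6}).Finite :=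
      (TT_locally_finite (r + 6)).preimage Subtype.val_injective.injOn
    refine (h2.prod (Set.finite_univ (α := Fin 4))).subset ?_
    intro x hx
    exact ⟨⟨x.1.2, hx⟩, Set.mem_univ _⟩
  have h2 := h1.preimage (walk_inj d).injOn
  have h3 : Bornology.IsBounded (⋃ n ∈ walk d ⁻¹' {x : Dart | ‖x.1.1.ev g0‖ ≤ r + 6},
      Set.Icc (n : ℝ) (n + 1)) :=
    (Bornology.isBounded_biUnion h2).2 fun n _ => Metric.isBounded_Icc _ _
  refine h3.subset fun t ht => ?_
  simp only [Set.mem_iUnion]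
  refine ⟨⌊t⌋, ?_, Int.floor_le t, (Int.lt_floor_add_one t).le⟩
  have e1 := hr _ ht
  rw [line_eq, Dart.at_eq] at e1
  have e2 := (TT_sim (walk d ⌊t⌋).1.2).norm_sub g0 (arcPt (walk d ⌊t⌋).2 (Int.fract t))
  have e3 := norm_le_of_T0 (O0_sub g0_mem)
  have e4 := norm_le_of_T0 (arcPt_T0 (walk d ⌊t⌋).2 (Int.fract_nonneg t) (Int.fract_lt_one t).le)
  have e5 := norm_sub_le g0 (arcPt (walk d ⌊t⌋).2 (Int.fract t))
  have e6 := norm_sub_norm_le ((walk d ⌊t⌋).1.1.ev g0)
    ((walk d ⌊t⌋).1.1.ev (arcPt (walk d ⌊t⌋).2 (Int.fract t)))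
  change ‖(walk d ⌊t⌋).1.1.ev g0‖ ≤ r + 6
  linarith

theorem line_closedEmbedding (d : Dart) : IsClosedEmbedding (line d) := by
  have hc : Continuous (line d) := continuous_broken _
  have hp : IsProperMap (line d) := isProperMap_iff_isCompact_preimage.2
    ⟨hc, fun K hK => Metric.isCompact_of_isClosed_isBounded (hK.isClosed.preimage hc)
      (line_preimage d hK.isBounded)⟩
  exact .of_continuous_injective_isClosedMap hc (line_inj d) hp.isClosedMap

theorem line_unbounded (d : Dart) : ¬ Bornology.IsBounded (Set.range (line d)) := by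
  intro h
  have := line_preimage d h
  rw [Set.preimage_range] at this
  exact NormedSpace.unbounded_univ ℝ ℝ this

theorem mem_line (d : Dart) (z : ℂ) :
    z ∈ Set.range (line d) ↔ ∃ d' : Dart, Conn d.P d'.P ∧ ∃ u ∈ Set.Icc (0 : ℝ) 1, z = d'.at u := by
  constructor
  · rintro ⟨t, rfl⟩
    exact ⟨_, conn_walk d ⌊t⌋, _, ⟨Int.fract_nonneg t, (Int.fract_lt_one t).le⟩, line_eq d t⟩
  · rintro ⟨d', h, u, ⟨h0, h1⟩, rfl⟩
    have key : ∀ n, ∀ u ∈ Set.Icc (0 : ℝ) 1, (walk d n).at u ∈ Set.range (line d) := by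
      intro n u hu
      refine ⟨n + u, ?_⟩
      rw [line, broken_eq _ n ⟨by linarith [hu.1], by linarith [hu.2]⟩, walk_P, add_sub_cancel_left]
      rfl
    obtain ⟨n, hn⟩ := exists_walk d h
    rcases eq_or_fb hn with rfl | h2
    · exact key n u ⟨h0, h1⟩
    · rw [fb_walk] at h2
      have : d'.at u = (walk d (n - 1)).at (1 - u) := by
        rw [h2, Dart.at, Dart.at, fa_fa]
        apply Complex.ext <;> simp <;> ring
      rw [this]
      exact key _ _ ⟨by linarith, by linarith⟩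

theorem line_congr {d d' : Dart} (h : Conn d.P d'.P) : Set.range (line d) = Set.range (line d') := by
  ext z
  rw [mem_line, mem_line]
  exact exists_congr fun x => and_congr_left fun _ =>
    ⟨fun h2 => h.symm.trans h2, fun h2 => h.trans h2⟩

theorem line_meet {d d' : Dart} {t t' : ℝ} (e : line d t = line d' t') : Conn d.P d'.P := by
  rw [line_eq, line_eq] at e
  have h1 := conn_walk d ⌊t⌋
  have h2 := (conn_walk d' ⌊t'⌋).symm
  rcases meet (Int.fract_nonneg t) (Int.fract_lt_one t) (Int.fract_nonneg t')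
    (Int.fract_lt_one t') e with ⟨h, -⟩ | h | h
  · rw [h] at h2; exact h1.trans h2
  · rw [h] at h2; exact (h1.trans (R_fa _).conn).trans h2
  · rw [h, fb_P] at h2; exact h1.trans h2

/-- The family of lines. -/
def lines : Set (Set ℂ) := Set.range fun d : Dart => Set.range (line d)

theorem lines_finite : lines.Finite := by
  by_contra hinf
  have hinf : lines.Infinite := hinf
  let f := hinf.natEmbedding
  choose d hd using fun i => (f i).2
  choose n hn using fun i => Set.mem_iUnion.1 (d i).1.2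
  obtain ⟨w, -, -, hc⟩ := far (Finset.univ.sup fun i : Fin 4 => n i)
  choose g hg using fun i : Fin 4 => hc (d i).1
    (KK_mono (Finset.le_sup (f := fun i : Fin 4 => n i) (Finset.mem_univ i)) (hn i)) (d i).2
  obtain ⟨i, j, hne, e⟩ := Fintype.exists_ne_map_eq_of_card_lt g (by simp)
  have h1 : Conn (d i).P (d j).P := (hg i).trans (by rw [e]; exact (hg j).symm)
  have h2 : f i = f j := Subtype.ext ((hd i).symm.trans ((line_congr h1).trans (hd j)))
  exact hne (Fin.ext (f.injective h2))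

theorem lines_disjoint : lines.PairwiseDisjoint id := by
  rintro _ ⟨d, rfl⟩ _ ⟨d', rfl⟩ hne
  refine Set.disjoint_left.2 ?_
  rintro _ ⟨t, rfl⟩ ⟨t', e⟩
  exact hne (line_congr (line_meet e.symm))

theorem mem_lines (z : ℂ) :
    z ∈ ⋃₀ lines ↔ ∃ s ∈ TT, ∃ m, ∃ u ∈ Set.Icc (0 : ℝ) 1, z = s.ev (arcPt m u) := by
  constructor
  · rintro ⟨_, ⟨d, rfl⟩, hz⟩
    obtain ⟨d', -, u, hu, rfl⟩ := (mem_line d z).1 hz
    exact ⟨_, d'.1.2, d'.2, u, hu, d'.at_eq u⟩
  · rintro ⟨s, hs, m, u, hu, rfl⟩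
    exact ⟨_, ⟨(⟨s, hs⟩, m), rfl⟩, (mem_line _ _).2
      ⟨_, Conn.refl _, u, hu, (Dart.at_eq (⟨s, hs⟩, m) u).symm⟩⟩

end Pool.Agent.MP_55cbcc_co
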