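import Pool.Agent.MP_55cbcc_co.Tiling

/-! Marked points: each lies on exactly two tiles; the strands connect. -/

namespace Pool.Agent.MP_55cbcc_co

open Aff Filter Topology

/-- A marked point of a tile. -/
def pt (s : Aff ℝ) (m : Fin 4) : ℂ := s.ev (cpt (mk m))

/-- Inner normals at the marked points. -/
def nrm : Fin 4 → ℝ × ℝ := ![(1, 0), (0, 1), (0, 1), (-1, -2)]

theorem ev_pos {a b : ℝ} (ha : 0 ≤ a) (h : 0 < a ∨ 0 < b) :
    ∀ᶠ ε in 𝓝[>] (0 : ℝ), 0 < a + ε * b := by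
  rcases h with h | h
  · have hc : Continuous (fun ε : ℝ => a + ε * b) := by fun_prop
    have : ∀ᶠ ε in 𝓝 (0 : ℝ), 0 < a + ε * b :=
      hc.continuousAt.eventually (lt_mem_nhds (by simpa using h))
    exact this.filter_mono nhdsWithin_le_nhds
  · filter_upwards [self_mem_nhdsWithin] with ε hε
    have : 0 < ε * b := mul_pos hε h
    linarith

theorem inward (m : Fin 4) (u : ℂ) (h : 0 < (nrm m).1 * u.re + (nrm m).2 * u.im) :
    ∀ᶠ ε in 𝓝[>] (0 : ℝ), cpt (mk m) + ε • u ∈ O0 := by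
  have h1 : ∀ᶠ ε in 𝓝[>] (0 : ℝ), 0 < ((mk m).1 : ℝ) + ε * u.re := by
    apply ev_pos <;> fin_cases m <;> simp [mk, nrm] at h ⊢ <;> first | exact h | norm_num
  have h2 : ∀ᶠ ε in 𝓝[>] (0 : ℝ), 0 < ((mk m).2 : ℝ) + ε * u.im := by
    apply ev_pos <;> fin_cases m <;> simp [mk, nrm] at h ⊢ <;> first | exact h | norm_num
  have h3 : ∀ᶠ ε in 𝓝[>] (0 : ℝ),
      0 < (2 - ((mk m).1 : ℝ) - 2 * ((mk m).2 : ℝ)) + ε * (-u.re - 2 * u.im) := by
    apply ev_pos <;> fin_cases m <;> simp [mk, nrm] at h ⊢ <;> first | linarith | (right; linarith) | norm_num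
  filter_upwards [h1, h2, h3] with ε e1 e2 e3
  refine ⟨?_, ?_, ?_⟩ <;> simp <;> linarith

theorem half_disc {s : Aff ℝ} (hs : s.Sim 1) (m : Fin 4) :
    ∃ a b : ℝ, (a ≠ 0 ∨ b ≠ 0) ∧ ∀ v : ℂ, 0 < a * v.re + b * v.im →
      ∀ᶠ ε in 𝓝[>] (0 : ℝ), ∃ u ∈ O0, s.ev u = pt s m + ε • v := by
  obtain ⟨h1, h2, h3⟩ := hs.rows
  obtain ⟨h4, h5, h6⟩ := hs
  refine ⟨s.a11 * (nrm m).1 + s.a12 * (nrm m).2, s.a21 * (nrm m).1 + s.a22 * (nrm m).2, ?_, ?_⟩
  · by_contra hc
    rw [not_or, not_not, not_not] at hc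
    obtain ⟨e1, e2⟩ := hc
    have : (nrm m).1 ^ 2 + (nrm m).2 ^ 2 = 0 := by
      linear_combination (s.a11 * (nrm m).1 + s.a12 * (nrm m).2) * e1 +
        (s.a21 * (nrm m).1 + s.a22 * (nrm m).2) * e2 - (nrm m).1 ^ 2 * h4 - (nrm m).2 ^ 2 * h5 -
        2 * (nrm m).1 * (nrm m).2 * h6
    fin_cases m <;> simp [nrm] at this
    norm_num at this
  · intro v hv
    have := inward m ⟨s.a11 * v.re + s.a21 * v.im, s.a12 * v.re + s.a22 * v.im⟩
      (by simp only; linarith)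
    filter_upwards [this] with ε hε
    refine ⟨_, hε, ?_⟩
    apply Complex.ext <;> simp [pt]
    · linear_combination ε * v.re * h1 + ε * v.im * h3
    · linear_combination ε * v.im * h2 + ε * v.re * h3

theorem root_finite {a b : ℝ} (h : a ≠ 0 ∨ b ≠ 0) : {t : ℝ | a + b * t = 0}.Finite := by
  apply Set.Subsingleton.finite
  intro t ht t' ht'
  simp only [Set.mem_ofPred_eq] at ht ht'
  by_cases hb : b = 0
  · rw [hb] at ht
    rcases h with h | h
    · exact (h (by linarith)).elim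
    · exact (h hb).elim
  · exact mul_left_cancel₀ hb (by linarith)

theorem at_most_two {s1 s2 s3 : Aff ℝ} (h1 : s1 ∈ TT) (h2 : s2 ∈ TT) (h3 : s3 ∈ TT)
    {m1 m2 m3 : Fin 4} (e2 : pt s2 m2 = pt s1 m1) (e3 : pt s3 m3 = pt s1 m1) :
    s1 = s2 ∨ s1 = s3 ∨ s2 = s3 := by
  obtain ⟨a1, b1, n1, k1⟩ := half_disc (TT_sim h1) m1
  obtain ⟨a2, b2, n2, k2⟩ := half_disc (TT_sim h2) m2
  obtain ⟨a3, b3, n3, k3⟩ := half_disc (TT_sim h3) m3
  rw [e2] at k2
  rw [e3] at k3
  have key : ∀ {s s' : Aff ℝ} {v : ℂ}, s ∈ TT → s' ∈ TT →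
      (∀ᶠ ε in 𝓝[>] (0 : ℝ), ∃ u ∈ O0, s.ev u = pt s1 m1 + ε • v) →
      (∀ᶠ ε in 𝓝[>] (0 : ℝ), ∃ u ∈ O0, s'.ev u = pt s1 m1 + ε • v) → s = s' := by
    intro s s' v hs hs' f f'
    obtain ⟨ε, ⟨u, hu, e⟩, u', hu', e'⟩ := (f.and f').exists
    by_contra hne
    exact TT_dis hs hs' hne u hu u' (O0_sub hu') (e.trans e'.symm)
  obtain ⟨t, ht⟩ := (((root_finite n1).union (root_finite n2)).union (root_finite n3)).exists_notMem
  simp only [Set.mem_union, Set.mem_ofPred_eq, not_or] at ht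
  obtain ⟨⟨t1, t2⟩, t3⟩ := ht
  have p1 := k1 ⟨1, t⟩
  have p2 := k2 ⟨1, t⟩
  have p3 := k3 ⟨1, t⟩
  have q1 := k1 ⟨-1, -t⟩
  have q2 := k2 ⟨-1, -t⟩
  have q3 := k3 ⟨-1, -t⟩
  simp only at p1 p2 p3 q1 q2 q3
  rcases lt_or_gt_of_ne t1 with c1 | c1 <;> rcases lt_or_gt_of_ne t2 with c2 | c2 <;>
    rcases lt_or_gt_of_ne t3 with c3 | c3
  · exact Or.inl (key h1 h2 (q1 (by linarith)) (q2 (by linarith)))
  · exact Or.inl (key h1 h2 (q1 (by linarith)) (q2 (by linarith)))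
  · exact Or.inr (Or.inl (key h1 h3 (q1 (by linarith)) (q3 (by linarith))))
  · exact Or.inr (Or.inr (key h2 h3 (p2 (by linarith)) (p3 (by linarith))))
  · exact Or.inr (Or.inr (key h2 h3 (q2 (by linarith)) (q3 (by linarith))))
  · exact Or.inr (Or.inl (key h1 h3 (p1 (by linarith)) (p3 (by linarith))))
  · exact Or.inl (key h1 h2 (p1 (by linarith)) (p2 (by linarith)))
  · exact Or.inl (key h1 h2 (p1 (by linarith)) (p2 (by linarith)))

theorem pt_inj {s : Aff ℝ} (hs : s ∈ TT) {m m' : Fin 4} (e : pt s m = pt s m') : m = m' :=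
  mk_inj _ _ (cpt_inj ((TT_sim hs).injective one_ne_zero e))

theorem pt_comp (s : Aff ℝ) (a : Aff ℚ) (m : Fin 4) :
    pt (s.comp a.cast) m = s.ev (cpt (a.pev (mk m))) := by
  rw [pt, ev_comp, ev_cast_cpt]

theorem pt_partner (k : Bool) (s : Aff ℝ) : pt (partner k s) 3 = pt s 3 := by
  rw [partner, pt_comp, tau_mk, pt]

theorem pev_comp (a b : Aff ℚ) (p : ℚ × ℚ) : (a.comp b).pev p = a.pev (b.pev p) := by
  simp only [Aff.pev, Aff.comp]; ext <;> simp only <;> ring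

theorem other {s : Aff ℝ} (hs : s ∈ TT) (m : Fin 4) :
    ∃ s' ∈ TT, ∃ m', s' ≠ s ∧ pt s' m' = pt s m ∧
      ((m ≠ 3 ∧ m' ≠ 3) ∨ (m = 3 ∧ m' = 3 ∧ ∃ k, s' = partner k s)) := by
  induction m using Fin.lastCases with
  | last =>
    obtain ⟨k, hk⟩ := TT_matched hs
    exact ⟨_, hk, 3, partner_ne (TT_sim hs) k, pt_partner k s, Or.inr ⟨rfl, rfl, k, rfl⟩⟩
  | cast e =>
    obtain ⟨k, s0, j, hf, rfl⟩ := exists_parent hs
    obtain ⟨j', e', k', hj, h⟩ := sibling_adj (k := k) (s := s0) j e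
    refine ⟨_, hf.child_mem j', e'.castSucc, (sibling_dis (TT_sim hf.1) k hj).ne, ?_,
      Or.inl ⟨(Fin.castSucc_lt_last e).ne, (Fin.castSucc_lt_last e').ne⟩⟩
    have := congrArg (fun t => pt t 3) h
    simp only [pt_comp, pev_comp, tau_mk, eta_mk'] at this
    exact this

/-- The two ends of a marked arc. -/
def R (x y : ℂ) : Prop := ∃ s ∈ TT, ∃ m, x = pt s m ∧ y = pt s (opp m)

/-- Joined by a chain of arcs. -/
def Conn : ℂ → ℂ → Prop := Relation.ReflTransGen R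

theorem R.symm {x y : ℂ} (h : R x y) : R y x := by
  obtain ⟨s, hs, m, rfl, rfl⟩ := h
  exact ⟨s, hs, opp m, rfl, by rw [opp_opp]⟩

theorem Conn.refl (x : ℂ) : Conn x x := Relation.ReflTransGen.refl

theorem Conn.trans {x y z : ℂ} (h : Conn x y) (h' : Conn y z) : Conn x z :=
  Relation.ReflTransGen.trans h h'

theorem R.conn {x y : ℂ} (h : R x y) : Conn x y := Relation.ReflTransGen.single h

theorem Conn.symm {x y : ℂ} (h : Conn x y) : Conn y x := by
  induction h with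
  | refl => exact Conn.refl _
  | tail _ h2 ih => exact h2.symm.conn.trans ih

theorem pt_place (s : Aff ℝ) (a : Aff ℚ) (m : Fin 4) :
    pt (place s a) m = infl.cast.ev (s.ev (cpt (a.pev (mk m)))) := by
  rw [pt, place_ev, ev_cast_cpt]

theorem strand_conn {k : Bool} {s : Aff ℝ} (hf : Fam TT k s) (i : Fin 3) {p q : ℚ × ℚ}
    (hp : p ∈ strand k i) (hq : q ∈ strand k i) :
    Conn (infl.cast.ev (s.ev (cpt p))) (infl.cast.ev (s.ev (cpt q))) := by
  let Q : ℚ × ℚ → ℚ × ℚ → Prop := fun p q =>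
    Conn (infl.cast.ev (s.ev (cpt p))) (infl.cast.ev (s.ev (cpt q)))
  have h1 : List.IsChain Q (strand k i) := by
    refine (strand_chain k i).imp ?_
    rintro p q ⟨j, m, rfl, rfl⟩
    exact R.conn ⟨_, hf.child_mem j, m, (pt_place _ _ _).symm, (pt_place _ _ _).symm⟩
  have : Trans Q Q Q := ⟨fun h h' => Conn.trans h h'⟩
  have : Std.Symm Q := ⟨fun _ _ h => Conn.symm h⟩
  have h2 : List.Pairwise Q (strand k i) := List.isChain_iff_pairwise.1 h1
  exact List.Pairwise.forall_of_forall (R := Q) (fun _ _ => Conn.refl _) h2 hp hq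

/-- The leg point used for a marked point. -/
def low : Fin 4 → Fin 3 := ![0, 1, 2, 2]

/-- The lift of a marked point to the next level. -/
def lift (s : Aff ℝ) (m : Fin 4) : ℂ := infl.cast.ev (pt s (low m).castSucc)

theorem lift_partner {s : Aff ℝ} (hs : s ∈ TT) {k : Bool} (hk : partner k s ∈ TT) :
    Conn (lift s 3) (lift (partner k s) 3) := by
  obtain ⟨-, -, -, -, e1, e2⟩ := strand_ends k
  have key : ∀ {s0}, Fam TT k s0 → Conn (lift s0 3) (lift (partner k s0) 3) := by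
    intro s0 hf
    have := strand_conn hf 2 e1 e2
    rw [← pt_comp] at this
    exact this
  rcases lt_or_gt (TT_sim hs) k with h | h
  · exact key ⟨hs, hk, h⟩
  · have := key (s0 := partner k s)
      ⟨hk, by rwa [partner_partner], by rwa [partner_partner]⟩
    rw [partner_partner] at this
    exact this.symm

theorem low_of_ne {m : Fin 4} (h : m ≠ 3) : (low m).castSucc = m := by
  revert m; decide

theorem lift_eq {s s' : Aff ℝ} (hs : s ∈ TT) (hs' : s' ∈ TT) {m m' : Fin 4}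
    (e : pt s' m' = pt s m) : Conn (lift s m) (lift s' m') := by
  obtain ⟨s2, h2, m2, hne, e2, hc⟩ := other hs m
  rcases at_most_two hs hs' h2 e e2 with rfl | rfl | rfl
  · rw [pt_inj hs e]; exact Conn.refl _
  · exact (hne rfl).elim
  · obtain rfl : m' = m2 := pt_inj hs' (e.trans e2.symm)
    rcases hc with ⟨c1, c2⟩ | ⟨rfl, rfl, k, rfl⟩
    · rw [lift, lift, low_of_ne c1, low_of_ne c2, e]; exact Conn.refl _
    · exact lift_partner hs hs'

theorem lift_opp {s : Aff ℝ} (hs : s ∈ TT) (m : Fin 4) : Conn (lift s m) (lift s (opp m)) := by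
  have key : Conn (lift s 0) (lift s 1) := by
    obtain ⟨k, hk⟩ := TT_matched hs
    obtain ⟨e1, e2, e3, e4, -, -⟩ := strand_ends k
    obtain ⟨s0, h, hf, rfl⟩ := exists_fam (TT_sim hs) hs hk
    cases h
    · have := strand_conn hf 0 e1 e2
      simp only [half, cast_one, comp_one]
      exact this
    · have := strand_conn hf 1 e3 e4
      rw [← pt_comp, ← pt_comp] at this
      exact this
  fin_cases m
  · exact key
  · exact key.symm
  · exact Conn.refl _
  · exact Conn.refl _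

theorem lift_conn {s : Aff ℝ} (hs : s ∈ TT) (m : Fin 4) {y : ℂ} (h : Conn (pt s m) y) :
    ∀ s' ∈ TT, ∀ m', y = pt s' m' → Conn (lift s m) (lift s' m') := by
  induction h with
  | refl => intro s' hs' m' e; exact lift_eq hs hs' e.symm
  | tail _ h2 ih =>
    obtain ⟨t, ht, μ, rfl, rfl⟩ := h2
    intro s' hs' m' e
    exact ((ih t ht μ rfl).trans (lift_opp ht μ)).trans (lift_eq ht hs' e.symm)

theorem lift_marked {s : Aff ℝ} (hs : s ∈ TT) (m : Fin 4) : ∃ t ∈ TT, lift s m = pt t 3 := by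
  obtain ⟨p, hp⟩ := edge_tile hs (TT_matched hs) (low m)
  exact ⟨_, hp, by rw [pt_place, eta_mk]; rfl⟩

theorem norm_lift {s : Aff ℝ} (hs : s ∈ TT) (m : Fin 4) :
    11 / 5 * (‖pt s m‖ - 71 / 100) ≤ ‖lift s m‖ := by
  refine le_trans ?_ (norm_infl _)
  have h1 : ‖pt s m - pt s (low m).castSucc‖ ≤ 71 / 100 := by
    rw [pt, pt, (TT_sim hs).norm_sub]
    apply le_of_sq_le_sq _ (by norm_num)
    rw [← Complex.normSq_eq_norm_sq, Complex.normSq_apply]
    fin_cases m <;> simp [low, mk] <;> norm_num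
  have := norm_sub_norm_le (pt s m) (pt s (low m).castSucc)
  linarith

theorem child_conn {k : Bool} {s : Aff ℝ} (hf : Fam TT k s) (j : Fin 10) (m : Fin 4) :
    Conn (pt (place s (alpha k j)) m) (lift s 0) ∨
      Conn (pt (place s (alpha k j)) m) (lift (partner k s) 0) ∨
        Conn (pt (place s (alpha k j)) m) (lift (partner k s) 2) := by
  obtain ⟨i, hi⟩ := strand_all k j m
  obtain ⟨e1, -, e3, -, -, e6⟩ := strand_ends k
  rw [pt_place]
  fin_cases i
  · exact Or.inl (strand_conn hf 0 hi e1)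
  · refine Or.inr (Or.inl ?_)
    have := strand_conn hf 1 hi e3
    rw [← pt_comp _ (tau k)] at this
    exact this
  · refine Or.inr (Or.inr ?_)
    have := strand_conn hf 2 hi e6
    rw [← pt_comp _ (tau k)] at this
    exact this

theorem far (n : ℕ) : ∃ (w : Fin 3 → Aff ℝ), (∀ i, w i ∈ TT) ∧
    (∀ i, 17 / 10 + 2 / 5 * n ≤ ‖pt (w i) 3‖) ∧
      ∀ s ∈ KK n, ∀ m, ∃ i, Conn (pt s m) (pt (w i) 3) := by
  induction n with
  | zero =>
    have hf : Fam TT true dz.cast := fam_dz.mono (KK_sub 0)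
    obtain ⟨t0, h0, e0⟩ := lift_marked hf.1 0
    obtain ⟨t1, h1, e1⟩ := lift_marked hf.2.1 0
    obtain ⟨t2, h2, e2⟩ := lift_marked hf.2.1 2
    refine ⟨![t0, t1, t2], ?_, ?_, ?_⟩
    · intro i; fin_cases i <;> assumption
    · intro i
      fin_cases i
      · change _ ≤ ‖pt t0 3‖
        rw [← e0]
        refine le_trans ?_ (Complex.abs_re_le_norm _)
        simp [lift, pt, low, mk, infl, dz, Aff.cast]
        norm_num
      · change _ ≤ ‖pt t1 3‖
        rw [← e1]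
        refine le_trans ?_ (Complex.abs_re_le_norm _)
        simp [lift, pt, low, mk, infl, dz, Aff.cast, partner, Aff.comp, tau, rho]
        norm_num
      · change _ ≤ ‖pt t2 3‖
        rw [← e2]
        refine le_trans ?_ (Complex.abs_im_le_norm _)
        simp [lift, pt, low, mk, infl, dz, Aff.cast, partner, Aff.comp, tau, rho]
        norm_num
    · rintro s ⟨j, rfl⟩ m
      rcases child_conn hf j m with h | h | h
      · exact ⟨0, by rw [e0] at h; exact h⟩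
      · exact ⟨1, by rw [e1] at h; exact h⟩
      · exact ⟨2, by rw [e2] at h; exact h⟩
  | succ n ih =>
    obtain ⟨w, hw, hn, hc⟩ := ih
    choose t ht et using fun i => lift_marked (hw i) 3
    refine ⟨t, ht, ?_, ?_⟩
    · intro i
      rw [← et]
      have := norm_lift (hw i) 3
      have h2 := hn i
      have h3 : (0 : ℝ) ≤ n := Nat.cast_nonneg n
      push_cast
      linarith
    · rintro s ⟨k, s0, j, hf, rfl⟩ m
      have key : ∀ s1 ∈ KK n, ∀ μ, ∃ i, Conn (lift s1 μ) (pt (t i) 3) := by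
        intro s1 h1 μ
        obtain ⟨i, hi⟩ := hc s1 h1 μ
        exact ⟨i, by rw [← et]; exact lift_conn (KK_sub n h1) μ hi _ (hw i) 3 rfl⟩
      rcases child_conn (hf.mono (KK_sub n)) j m with h | h | h
      · obtain ⟨i, hi⟩ := key _ hf.1 0
        exact ⟨i, h.trans hi⟩
      · obtain ⟨i, hi⟩ := key _ hf.2.1 0
        exact ⟨i, h.trans hi⟩
      · obtain ⟨i, hi⟩ := key _ hf.2.1 2
        exact ⟨i, h.trans hi⟩

end Pool.Agent.MP_55cbcc_co
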