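import Pool.Agent.MP_55cbcc_co.Aff

/-! The finite data of the substitution and the finite checks on it. -/

namespace Pool.Agent.MP_55cbcc_co

open Aff

/-- Half turn about the midpoint of the hypotenuse. -/
def rho : Aff ℚ := ⟨2, 1, -1, 0, 0, -1⟩
/-- Reflection in the hypotenuse. -/
def kap : Aff ℚ := ⟨4 / 5, 8 / 5, 3 / 5, -4 / 5, -4 / 5, -3 / 5⟩
/-- Reflection in the perpendicular bisector of the hypotenuse. -/
def mu0 : Aff ℚ := rho.comp kap
/-- The partner map: kite (`false`) or domino (`true`). -/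
def tau : Bool → Aff ℚ
  | false => kap
  | true => rho
/-- From small coordinates to the triangle. -/
def theta : Aff ℚ := ⟨0, 1, 2 / 5, -1 / 5, -1 / 5, -2 / 5⟩
/-- Flip of the domino. -/
def phi : Aff ℚ := ⟨2, 0, -1, 0, 0, 1⟩
/-- From small coordinates to the pair. -/
def Theta : Bool → Aff ℚ
  | false => theta
  | true => phi.comp theta
/-- The ten children in small coordinates. -/
def beta : Bool → Fin 10 → Aff ℚ
  | false => ![⟨1, 0, 0, -1, 1, 0⟩, ⟨1, 1, 1, 0, 0, 1⟩, ⟨3, 0, 1, 0, 0, 1⟩, ⟨1, 0, 1, 0, 0, 1⟩,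
      ⟨3, 1, -1, 0, 0, -1⟩, ⟨1, 0, 0, -1, -1, 0⟩, ⟨1, -1, 1, 0, 0, -1⟩, ⟨3, 0, 1, 0, 0, -1⟩,
      ⟨3, 0, -1, 0, 0, -1⟩, ⟨1, -1, 1, 0, 0, 1⟩]
  | true => ![⟨1, 0, 0, -1, 1, 0⟩, ⟨1, 1, 1, 0, 0, 1⟩, ⟨3, 0, 1, 0, 0, 1⟩, ⟨1, 0, 1, 0, 0, 1⟩,
      ⟨3, 1, -1, 0, 0, -1⟩, ⟨4, 0, 0, 1, -1, 0⟩, ⟨4, -1, -1, 0, 0, -1⟩, ⟨2, 0, -1, 0, 0, -1⟩,
      ⟨2, 0, 1, 0, 0, -1⟩, ⟨4, -1, -1, 0, 0, 1⟩]
/-- The ten children. -/
def alpha (k : Bool) (j : Fin 10) : Aff ℚ := (Theta k).comp (beta k j)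
/-- The small triangles standing on the three unit edges. -/
def eta : Fin 3 → Aff ℚ :=
  ![theta.comp ⟨1, 0, 0, -1, 1, 0⟩, theta.comp ⟨1, 1, 1, 0, 0, 1⟩, theta.comp ⟨3, 0, 1, 0, 0, 1⟩]
/-- A small triangle on a unit edge, in one of its two positions. -/
def etaP (e : Fin 3) : Bool → Aff ℚ
  | false => eta e
  | true => (eta e).comp mu0
/-- One of the two halves of a pair. -/
def half (k : Bool) : Bool → Aff ℚ
  | false => one
  | true => tau k
/-- The four marked boundary points. -/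
def mk : Fin 4 → ℚ × ℚ := ![(0, 1 / 2), (1 / 2, 0), (3 / 2, 0), (1, 1 / 2)]
/-- The other end of the arc. -/
def opp : Fin 4 → Fin 4 := ![1, 0, 3, 2]
/-- The inflation, multiplication by `-2 + i`. -/
def infl : Aff ℚ := ⟨0, 0, -2, -1, 1, -2⟩
/-- The first tile. -/
def dz : Aff ℚ := ⟨-6 / 5, -2 / 5, 1, 0, 0, 1⟩
/-- The vertices of the triangle. -/
def verts : List (ℚ × ℚ) := [(0, 0), (2, 0), (0, 1)]

/-- The image of the triangle lies outside one of the edge lines. -/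
def Sep (g : Aff ℚ) : Prop :=
  (∀ v ∈ verts, (g.pev v).1 ≤ 0) ∨ (∀ v ∈ verts, (g.pev v).2 ≤ 0) ∨
    (∀ v ∈ verts, 2 ≤ (g.pev v).1 + 2 * (g.pev v).2)

instance (g : Aff ℚ) : Decidable (Sep g) := by unfold Sep; infer_instance

/-- The image of the triangle lies in the triangle. -/
def AllIn (g : Aff ℚ) : Prop :=
  ∀ v ∈ verts, 0 ≤ (g.pev v).1 ∧ 0 ≤ (g.pev v).2 ∧ (g.pev v).1 + 2 * (g.pev v).2 ≤ 2

instance (g : Aff ℚ) : Decidable (AllIn g) := by unfold AllIn; infer_instance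

/-- The image of the triangle lies in the rectangle. -/
def AllRect (g : Aff ℚ) : Prop :=
  ∀ v ∈ verts, 0 ≤ (g.pev v).1 ∧ 0 ≤ (g.pev v).2 ∧ (g.pev v).1 ≤ 2 ∧ (g.pev v).2 ≤ 1

instance (g : Aff ℚ) : Decidable (AllRect g) := by unfold AllRect; infer_instance

theorem alpha_sim : ∀ k j, (alpha k j).Sim (1 / 5) := by decide +kernel
theorem tau_sim : ∀ k, (tau k).Sim 1 := by decide +kernel
theorem infl_sim : infl.Sim 5 := by decide +kernel
theorem dz_sim : dz.Sim 1 := by decide +kernel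
theorem tau_tau : ∀ k, (tau k).comp (tau k) = one := by decide +kernel
theorem sinv_alpha : ∀ k j, ((alpha k j).sinv 5).comp (alpha k j) = one := by decide +kernel
theorem alpha_sep : ∀ k j j', j ≠ j' → Sep (((alpha k j).sinv 5).comp (alpha k j')) ∨
    Sep (((alpha k j').sinv 5).comp (alpha k j)) := by decide +kernel
theorem alpha_sub : ∀ k j, AllIn (alpha k j) ∨ AllIn ((tau k).comp (alpha k j)) ∨
    (k = true ∧ AllRect (alpha k j)) := by decide +kernel
theorem edge_child : ∀ k h e, ∃ j p, alpha k j = (half k h).comp (etaP e p) := by decide +kernel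
theorem child_kind : ∀ k j, (∃ j', (alpha k j).comp (tau true) = alpha k j') ∨
    ∃ h e p, alpha k j = (half k h).comp (etaP e p) := by decide +kernel
theorem sibling : ∀ k j e, ∃ j' e' k', j' ≠ j ∧
    (alpha k j').comp (eta e') = ((alpha k j).comp (eta e)).comp (tau k') := by decide +kernel
theorem tau_mu : ∀ k, (tau k).comp mu0 = tau (!k) := by decide +kernel
theorem mu_tau : ∀ k, mu0.comp (tau k) = tau (!k) := by decide +kernel
theorem eta_mk : ∀ e p, (etaP e p).pev (mk 3) = mk e.castSucc := by decide +kernel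
theorem tau_mk : ∀ k, (tau k).pev (mk 3) = mk 3 := by decide +kernel
theorem eta_mk' : ∀ e, (eta e).pev (mk 3) = mk e.castSucc := by decide +kernel
theorem dz_child3 : infl.comp (dz.comp (alpha true 3)) = dz := by decide +kernel
theorem dz_child4 : infl.comp (dz.comp (alpha true 4)) = dz.comp (tau true) := by decide +kernel
theorem opp_opp : ∀ m, opp (opp m) = m := by decide
theorem mk_inj : ∀ m m', mk m = mk m' → m = m' := by decide +kernel
theorem opp_ne : ∀ m, opp m ≠ m := by decide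

/-- The order in which the first ten tiles find their partners. -/
def rank : Fin 10 → ℕ := ![4, 1, 3, 0, 0, 5, 2, 2, 0, 0]

theorem base_chain : ∀ j, (∃ j', (alpha true j).comp (tau true) = alpha true j') ∨
    ∃ h e p j' e' k', alpha true j = (half true h).comp (etaP e p) ∧ rank j' < rank j ∧
      (alpha true j').comp (eta e') =
        ((alpha true (if h then 4 else 3)).comp (eta e)).comp (tau k') := by decide +kernel

/-- The three strands through the ten children, in small coordinates. -/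
def strandS : Bool → Fin 3 → List (ℚ × ℚ)
  | false => ![[(1 / 2, 1), (1, 3 / 2), (3 / 2, 1), (2, 1 / 2), (5 / 2, 0), (3, -1 / 2), (7 / 2, 0),
        (3, 1 / 2), (5 / 2, 1), (2, 3 / 2)],
      [(1 / 2, -1), (1, -3 / 2), (3 / 2, -1), (1, -1 / 2), (1 / 2, 0), (1, 1 / 2), (3 / 2, 0),
        (2, -1 / 2), (5 / 2, -1), (2, -3 / 2)],
      [(4, 1 / 2), (9 / 2, 0), (4, -1 / 2)]]
  | true => ![[(4, 1 / 2), (9 / 2, 0), (4, -1 / 2), (7 / 2, -1), (4, -3 / 2), (9 / 2, -1)],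
      [(1 / 2, 1), (1, 3 / 2), (3 / 2, 1), (2, 1 / 2), (5 / 2, 0), (2, -1 / 2), (3 / 2, 0),
        (1, 1 / 2), (1 / 2, 0), (1, -1 / 2)],
      [(2, 3 / 2), (5 / 2, 1), (3, 1 / 2), (7 / 2, 0), (3, -1 / 2), (5 / 2, -1), (3, -3 / 2)]]

/-- The three strands. -/
def strand (k : Bool) (i : Fin 3) : List (ℚ × ℚ) := (strandS k i).map (Theta k).pev

/-- Two points are the ends of an arc of a child. -/
def Rm (k : Bool) (p q : ℚ × ℚ) : Prop :=
  ∃ j m, p = (alpha k j).pev (mk m) ∧ q = (alpha k j).pev (mk (opp m))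

instance (k : Bool) (p q : ℚ × ℚ) : Decidable (Rm k p q) := by unfold Rm; infer_instance

theorem strand_chain : ∀ k i, List.IsChain (Rm k) (strand k i) := by decide +kernel
theorem strand_all : ∀ k j m, ∃ i, (alpha k j).pev (mk m) ∈ strand k i := by decide +kernel
theorem strand_ends : ∀ k, mk 0 ∈ strand k 0 ∧ mk 1 ∈ strand k 0 ∧
    (tau k).pev (mk 0) ∈ strand k 1 ∧ (tau k).pev (mk 1) ∈ strand k 1 ∧
    mk 2 ∈ strand k 2 ∧ (tau k).pev (mk 2) ∈ strand k 2 := by decide +kernel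

end Pool.Agent.MP_55cbcc_co
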