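import Pool.Agent.MP_55cbcc_co.Geo

/-! The fixed point of the substitution is a tiling. -/

namespace Pool.Agent.MP_55cbcc_co

open Aff

/-- The partner across the hypotenuse. -/
def partner (k : Bool) (s : Aff ℝ) : Aff ℝ := s.comp (tau k).cast

/-- Inflate and place a small triangle. -/
def place (s : Aff ℝ) (a : Aff ℚ) : Aff ℝ := infl.cast.comp (s.comp a.cast)

/-- Lexicographic order on the right-angle corners. -/
def Lt (s s' : Aff ℝ) : Prop := s.c1 < s'.c1 ∨ (s.c1 = s'.c1 ∧ s.c2 < s'.c2)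

/-- An ordered pair in a set of tiles. -/
def Fam (K : Set (Aff ℝ)) (k : Bool) (s : Aff ℝ) : Prop :=
  s ∈ K ∧ partner k s ∈ K ∧ Lt s (partner k s)

/-- The patches. -/
def KK : ℕ → Set (Aff ℝ)
  | 0 => {t | ∃ j, t = place dz.cast (alpha true j)}
  | n + 1 => {t | ∃ k s j, Fam (KK n) k s ∧ t = place s (alpha k j)}

/-- The tiling. -/
def TT : Set (Aff ℝ) := ⋃ n, KK n

theorem partner_partner (k : Bool) (s : Aff ℝ) : partner k (partner k s) = s := by
  rw [partner, partner, Aff.comp_assoc, ← cast_comp, tau_tau, cast_one, comp_one]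

theorem place_comp (s : Aff ℝ) (a b : Aff ℚ) : (place s a).comp b.cast = place s (a.comp b) := by
  simp only [place, cast_comp, Aff.comp_assoc]

theorem place_comp' (s : Aff ℝ) (a b : Aff ℚ) : place (s.comp a.cast) b = place s (a.comp b) := by
  simp only [place, cast_comp, Aff.comp_assoc]

theorem place_ev (s : Aff ℝ) (a : Aff ℚ) (z : ℂ) :
    (place s a).ev z = infl.cast.ev (s.ev (a.cast.ev z)) := by
  simp only [place, ev_comp]

theorem partner_sim {k : Bool} {s : Aff ℝ} (h : s.Sim 1) : (partner k s).Sim 1 := by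
  have := h.comp (tau_sim k).cast
  simpa [partner] using this

theorem place_sim {s : Aff ℝ} (h : s.Sim 1) (k : Bool) (j : Fin 10) :
    (place s (alpha k j)).Sim 1 := by
  have := infl_sim.cast.comp (h.comp (alpha_sim k j).cast)
  norm_num at this
  exact this

theorem dz_sim' : dz.cast.Sim 1 := by simpa using dz_sim.cast

theorem infl_inj : Function.Injective infl.cast.ev := infl_sim.cast.injective (by norm_num)

theorem place_dz3 : place dz.cast (alpha true 3) = dz.cast := by
  rw [place, ← cast_comp, ← cast_comp, dz_child3]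

theorem place_dz4 : place dz.cast (alpha true 4) = partner true dz.cast := by
  rw [place, ← cast_comp, ← cast_comp, dz_child4, partner, cast_comp]

theorem fam_dz : Fam (KK 0) true dz.cast :=
  ⟨⟨3, place_dz3.symm⟩, ⟨4, place_dz4.symm⟩, Or.inl (by
    simp [partner, Aff.comp, Aff.cast, dz, tau, rho])⟩

theorem Fam.mono {K K' : Set (Aff ℝ)} (h : K ⊆ K') {k : Bool} {s : Aff ℝ} (hf : Fam K k s) :
    Fam K' k s := ⟨h hf.1, h hf.2.1, hf.2.2⟩

theorem KK_succ (n : ℕ) : KK n ⊆ KK (n + 1) := by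
  induction n with
  | zero => rintro t ⟨j, rfl⟩; exact ⟨true, _, j, fam_dz, rfl⟩
  | succ n ih => rintro t ⟨k, s, j, hf, rfl⟩; exact ⟨k, s, j, hf.mono ih, rfl⟩

theorem KK_mono : Monotone KK := monotone_nat_of_le_succ KK_succ

theorem KK_sub (n : ℕ) : KK n ⊆ TT := Set.subset_iUnion KK n

theorem KK_sim (n : ℕ) : ∀ s ∈ KK n, s.Sim 1 := by
  induction n with
  | zero => rintro t ⟨j, rfl⟩; exact place_sim dz_sim' _ _
  | succ n ih => rintro t ⟨k, s, j, hf, rfl⟩; exact place_sim (ih s hf.1) _ _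

theorem TT_sim {s : Aff ℝ} (h : s ∈ TT) : s.Sim 1 := by
  obtain ⟨n, hn⟩ := Set.mem_iUnion.1 h
  exact KK_sim n s hn

theorem exists_KK2 {s s' : Aff ℝ} (h : s ∈ TT) (h' : s' ∈ TT) : ∃ n, s ∈ KK n ∧ s' ∈ KK n := by
  obtain ⟨n, hn⟩ := Set.mem_iUnion.1 h
  obtain ⟨m, hm⟩ := Set.mem_iUnion.1 h'
  exact ⟨max n m, KK_mono (le_max_left _ _) hn, KK_mono (le_max_right _ _) hm⟩

theorem Fam.child_mem {k : Bool} {s : Aff ℝ} (h : Fam TT k s) (j : Fin 10) :
    place s (alpha k j) ∈ TT := by
  obtain ⟨n, h1, h2⟩ := exists_KK2 h.1 h.2.1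
  exact KK_sub (n + 1) ⟨k, s, j, ⟨h1, h2, h.2.2⟩, rfl⟩

theorem exists_parent {t : Aff ℝ} (h : t ∈ TT) :
    ∃ k s j, Fam TT k s ∧ t = place s (alpha k j) := by
  obtain ⟨n, hn⟩ := Set.mem_iUnion.1 h
  obtain ⟨k, s, j, hf, e⟩ := KK_succ n hn
  exact ⟨k, s, j, hf.mono (KK_sub n), e⟩

theorem KK_finite (n : ℕ) : (KK n).Finite := by
  induction n with
  | zero =>
    exact (Set.finite_range (fun j => place dz.cast (alpha true j))).subset
      (by rintro t ⟨j, rfl⟩; exact ⟨j, rfl⟩)
  | succ n ih =>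
    have : ((fun a : Aff ℝ × Bool × Fin 10 => place a.1 (alpha a.2.1 a.2.2)) ''
        (KK n ×ˢ Set.univ)).Finite := (ih.prod Set.finite_univ).image _
    refine this.subset ?_
    rintro t ⟨k, s, j, hf, rfl⟩
    exact ⟨(s, k, j), ⟨hf.1, Set.mem_univ _⟩, rfl⟩

theorem TT_countable : TT.Countable := Set.countable_iUnion fun n => (KK_finite n).countable

theorem Lt.asymm {s s' : Aff ℝ} (h : Lt s s') (h' : Lt s' s) : False := by
  rcases h with h | ⟨h1, h2⟩ <;> rcases h' with h' | ⟨h3, h4⟩ <;> linarith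

theorem partner_ev (k : Bool) (s : Aff ℝ) (z : ℂ) :
    (partner k s).ev z = s.ev ((tau k).cast.ev z) := ev_comp _ _ _

theorem lt_or_gt {s : Aff ℝ} (h : s.Sim 1) (k : Bool) : Lt s (partner k s) ∨ Lt (partner k s) s := by
  by_contra hc
  simp only [Lt, not_or, not_and, not_lt] at hc
  obtain ⟨⟨h1, h2⟩, h3, h4⟩ := hc
  have e1 : s.c1 = (partner k s).c1 := le_antisymm h3 h1
  have e2 : s.c2 = (partner k s).c2 := le_antisymm (h4 e1.symm) (h2 e1)
  have e : s.ev 0 = (partner k s).ev 0 := by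
    apply Complex.ext <;> simp [e1, e2]
  rw [partner_ev] at e
  have := congrArg Complex.re (h.injective one_ne_zero e)
  cases k
  · simp [tau, kap, Aff.cast] at this
    norm_num at this
  · simp [tau, rho, Aff.cast] at this

theorem partner_ne {s : Aff ℝ} (h : s.Sim 1) (k : Bool) : partner k s ≠ s := by
  intro e
  rcases lt_or_gt h k with h1 | h1 <;> rw [e] at h1 <;> exact h1.asymm h1

theorem exists_fam {K : Set (Aff ℝ)} {k : Bool} {s : Aff ℝ} (hs : s.Sim 1) (h1 : s ∈ K)
    (h2 : partner k s ∈ K) : ∃ s0 h, Fam K k s0 ∧ s = s0.comp (half k h).cast := by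
  rcases lt_or_gt hs k with h | h
  · exact ⟨s, false, ⟨h1, h2, h⟩, by simp [half]⟩
  · refine ⟨partner k s, true, ⟨h2, by rwa [partner_partner], by rwa [partner_partner]⟩, ?_⟩
    exact (partner_partner k s).symm

theorem Fam.half_mem {K : Set (Aff ℝ)} {k : Bool} {s : Aff ℝ} (hf : Fam K k s) (h : Bool) :
    s.comp (half k h).cast ∈ K := by
  cases h
  · simpa [half] using hf.1
  · exact hf.2.1

theorem sibling_dis {s : Aff ℝ} (hs : s.Sim 1) (k : Bool) {j j' : Fin 10} (h : j ≠ j') :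
    Dis (place s (alpha k j)) (place s (alpha k j')) := by
  have key : ∀ {j j' : Fin 10}, Sep (((alpha k j).sinv 5).comp (alpha k j')) →
      Dis (place s (alpha k j)) (place s (alpha k j')) := by
    intro j j' hsep u hu v hv e
    rw [place_ev, place_ev] at e
    have e2 := hs.injective one_ne_zero (infl_inj e)
    apply hsep.not_mem hv
    rw [cast_comp, ev_comp, ← e2, ← ev_comp, ← cast_comp, sinv_alpha, cast_one, ev_one]
    exact hu
  rcases alpha_sep k j j' h with h1 | h1
  · exact key h1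
  · exact (key h1).symm (place_sim hs _ _)

theorem partner_unique {K : Set (Aff ℝ)} (hK : ∀ s ∈ K, ∀ s' ∈ K, s ≠ s' → Dis s s')
    {s : Aff ℝ} (hs : s.Sim 1) {k k' : Bool} (h : partner k s ∈ K) (h' : partner k' s ∈ K) :
    k = k' := by
  have key : partner false s ∈ K → partner true s ∈ K → False := by
    intro h1 h2
    obtain ⟨u, hu, v, hv, e⟩ := overlap
    have hne : partner false s ≠ partner true s := by
      intro e'
      have e3 : (partner false s).ev 0 = (partner true s).ev 0 := by rw [e']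
      rw [partner_ev, partner_ev] at e3
      have := congrArg Complex.re (hs.injective one_ne_zero e3)
      simp [tau, kap, rho, Aff.cast] at this
      norm_num at this
    exact hK _ h1 _ h2 hne u hu v hv (by rw [partner_ev, partner_ev, e])
  cases k <;> cases k'
  · rfl
  · exact (key h h').elim
  · exact (key h' h).elim
  · rfl

theorem fam_unique {K : Set (Aff ℝ)} (hK : ∀ s ∈ K, ∀ s' ∈ K, s ≠ s' → Dis s s')
    (hsim : ∀ s ∈ K, s.Sim 1) {k k' : Bool} {s s' : Aff ℝ} (hf : Fam K k s) (hf' : Fam K k' s')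
    {h h' : Bool} (e : s.comp (half k h).cast = s'.comp (half k' h').cast) : k = k' ∧ s = s' := by
  cases h <;> cases h'
  · simp only [half, cast_one, comp_one] at e
    subst e
    exact ⟨partner_unique hK (hsim _ hf.1) hf.2.1 hf'.2.1, rfl⟩
  · simp only [half, cast_one, comp_one] at e
    change s = partner k' s' at e
    have e2 : partner k' s = s' := by rw [e, partner_partner]
    have hk : k = k' := partner_unique hK (hsim _ hf.1) hf.2.1 (e2 ▸ hf'.1)
    subst hk
    have h1 := hf.2.2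
    have h2 := hf'.2.2
    rw [e2] at h1
    rw [← e] at h2
    exact (h1.asymm h2).elim
  · simp only [half, cast_one, comp_one] at e
    change partner k s = s' at e
    have e2 : partner k s' = s := by rw [← e, partner_partner]
    have hk : k = k' := partner_unique hK (hsim _ hf'.1) (e2 ▸ hf.1) hf'.2.1
    subst hk
    have h1 := hf.2.2
    have h2 := hf'.2.2
    rw [e] at h1
    rw [e2] at h2
    exact (h1.asymm h2).elim
  · change partner k s = partner k' s' at e
    have hk : k = k' := partner_unique hK (hsim _ hf.2.1) (by rw [partner_partner]; exact hf.1)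
      (by rw [e, partner_partner]; exact hf'.1)
    subst hk
    exact ⟨rfl, by rw [← partner_partner k s, e, partner_partner]⟩

theorem child_sub (k : Bool) (s : Aff ℝ) (j : Fin 10) {z : ℂ} (hz : z ∈ T0) :
    ∃ h, ∃ v ∈ T0, (place s (alpha k j)).ev z = infl.cast.ev ((s.comp (half k h).cast).ev v) := by
  rcases alpha_mem k j hz with h | ⟨v, hv, e⟩
  · exact ⟨false, _, h, by simp [place_ev, half]⟩
  · exact ⟨true, v, hv, by rw [place_ev, e, ev_comp]; rfl⟩

theorem KK_dis (n : ℕ) : ∀ s ∈ KK n, ∀ s' ∈ KK n, s ≠ s' → Dis s s' := by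
  induction n with
  | zero =>
    rintro t ⟨j, rfl⟩ t' ⟨j', rfl⟩ hne
    exact sibling_dis dz_sim' _ (fun e => hne (by rw [e]))
  | succ n ih =>
    rintro t ⟨k, s, j, hf, rfl⟩ t' ⟨k', s', j', hf', rfl⟩ hne
    by_cases hc : k = k' ∧ s = s'
    · obtain ⟨rfl, rfl⟩ := hc
      exact sibling_dis (KK_sim n _ hf.1) _ (fun e => hne (by rw [e]))
    · intro u hu v hv e
      obtain ⟨h', v', hv', e'⟩ := child_sub k' s' j' hv
      obtain ⟨w, hw, u', hu', e2⟩ := exists_near
        (f := fun z => infl.cast.ev ((s'.comp (half k' h').cast).ev z))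
        (infl.cast.continuous_ev.comp (Aff.continuous_ev _))
        (isOpen_image (place_sim (KK_sim n _ hf.1) k j)) hv' ⟨u, hu, by rw [e, e']⟩
      obtain ⟨h, v2, hv2, e3⟩ := child_sub k s j (O0_sub hu')
      rw [e3] at e2
      have hne2 : s'.comp (half k' h').cast ≠ s.comp (half k h).cast :=
        fun e4 => hc (fam_unique ih (KK_sim n) hf hf' e4.symm)
      exact ih _ (hf'.half_mem h') _ (hf.half_mem h) hne2 w hw v2 hv2 (infl_inj e2).symm

theorem TT_dis {s s' : Aff ℝ} (h : s ∈ TT) (h' : s' ∈ TT) (hne : s ≠ s') : Dis s s' := by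
  obtain ⟨n, h1, h2⟩ := exists_KK2 h h'
  exact KK_dis n s h1 s' h2 hne

/-- The tile has a partner across its hypotenuse. -/
def Matched (s : Aff ℝ) : Prop := ∃ k, partner k s ∈ TT

theorem edge_tile {s : Aff ℝ} (hs : s ∈ TT) (hm : Matched s) (e : Fin 3) :
    ∃ p, place s (etaP e p) ∈ TT := by
  obtain ⟨k, hk⟩ := hm
  obtain ⟨s0, h, hf, rfl⟩ := exists_fam (TT_sim hs) hs hk
  obtain ⟨j, p, e1⟩ := edge_child k h e
  exact ⟨p, by rw [place_comp', ← e1]; exact hf.child_mem j⟩

theorem matched_step {s1 s3 : Aff ℝ} (h3 : s3 ∈ TT) (hm : Matched s3) {e e' : Fin 3} {k' : Bool}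
    (hadj : s3.comp (eta e').cast = s1.comp ((eta e).comp (tau k')).cast) (p : Bool) :
    Matched (place s1 (etaP e p)) := by
  obtain ⟨p', hp'⟩ := edge_tile h3 hm e'
  have e1 : place s3 (eta e') = place s1 ((eta e).comp (tau k')) := by rw [place, hadj, place]
  have e2 : ∃ k2, place s1 ((eta e).comp (tau k2)) ∈ TT := by
    cases p'
    · exact ⟨k', e1 ▸ hp'⟩
    · refine ⟨!k', ?_⟩
      simp only [etaP] at hp'
      rwa [← place_comp, e1, place_comp, Aff.comp_assoc, tau_mu] at hp'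
  obtain ⟨k2, hk2⟩ := e2
  cases p
  · exact ⟨k2, by rwa [partner, place_comp]⟩
  · refine ⟨!k2, ?_⟩
    rw [partner, place_comp]
    simp only [etaP]
    rwa [Aff.comp_assoc, mu_tau, Bool.not_not]

theorem inner_matched {k : Bool} {s : Aff ℝ} (hf : Fam TT k s) {j j' : Fin 10}
    (e : (alpha k j).comp (tau true) = alpha k j') : Matched (place s (alpha k j)) :=
  ⟨true, by rw [partner, place_comp, e]; exact hf.child_mem j'⟩

theorem base_matched (r : ℕ) : ∀ j, rank j ≤ r → Matched (place dz.cast (alpha true j)) := by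
  have hf : Fam TT true dz.cast := fam_dz.mono (KK_sub 0)
  induction r with
  | zero =>
    intro j hj
    rcases base_chain j with ⟨j', e⟩ | ⟨h, e, p, j', e', k', -, hr, -⟩
    · exact inner_matched hf e
    · omega
  | succ r ih =>
    intro j hj
    rcases base_chain j with ⟨j', e⟩ | ⟨h, e, p, j', e', k', e1, hr, e2⟩
    · exact inner_matched hf e
    · rw [e1, ← place_comp']
      apply matched_step (hf.child_mem j') (ih j' (by omega)) (e := e) (e' := e') (k' := k')
      rw [place_comp, e2, Aff.comp_assoc, ← place_comp]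
      congr 1
      cases h
      · simp [place_dz3, half]
      · simp only [if_true, place_dz4]; rfl

theorem sibling_adj {k : Bool} {s : Aff ℝ} (j : Fin 10) (e : Fin 3) :
    ∃ j' e' k', j' ≠ j ∧ (place s (alpha k j')).comp (eta e').cast =
      (place s (alpha k j)).comp ((eta e).comp (tau k')).cast := by
  obtain ⟨j', e', k', h1, h2⟩ := sibling k j e
  exact ⟨j', e', k', h1, by rw [place_comp, place_comp, h2, Aff.comp_assoc]⟩

theorem KK_matched (n : ℕ) : ∀ s ∈ KK n, Matched s := by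
  induction n with
  | zero => rintro t ⟨j, rfl⟩; exact base_matched _ j le_rfl
  | succ n ih =>
    rintro t ⟨k, s, j, hf, rfl⟩
    rcases child_kind k j with ⟨j', e⟩ | ⟨h, e, p, e1⟩
    · exact inner_matched (hf.mono (KK_sub n)) e
    · rw [e1, ← place_comp']
      have h1 := hf.half_mem h
      have key : ∃ s3 ∈ KK n, ∃ e' k', s3.comp (eta e').cast =
          (s.comp (half k h).cast).comp ((eta e).comp (tau k')).cast := by
        generalize s.comp (half k h).cast = s1 at h1
        cases n with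
        | zero =>
          obtain ⟨i, rfl⟩ := h1
          obtain ⟨j', e', k', -, h2⟩ := sibling_adj (k := true) (s := dz.cast) i e
          exact ⟨_, ⟨j', rfl⟩, e', k', h2⟩
        | succ n =>
          obtain ⟨k0, s0, i, hf0, rfl⟩ := h1
          obtain ⟨j', e', k', -, h2⟩ := sibling_adj (k := k0) (s := s0) i e
          exact ⟨_, ⟨k0, s0, j', hf0, rfl⟩, e', k', h2⟩
      obtain ⟨s3, h3, e', k', h2⟩ := key
      exact matched_step (KK_sub n h3) (ih s3 h3) h2 p

theorem TT_matched {s : Aff ℝ} (h : s ∈ TT) : Matched s := by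
  obtain ⟨n, hn⟩ := Set.mem_iUnion.1 h
  exact KK_matched n s hn

theorem infl_ev (z : ℂ) : infl.cast.ev z = (-2 + Complex.I) * z := by
  apply Complex.ext <;> simp [infl, Aff.cast] <;> ring

theorem norm_infl (z : ℂ) : 11 / 5 * ‖z‖ ≤ ‖infl.cast.ev z‖ := by
  rw [infl_ev, norm_mul]
  gcongr
  have : ‖(-2 + Complex.I : ℂ)‖ ^ 2 = 5 := by
    rw [← Complex.normSq_eq_norm_sq, Complex.normSq_apply]; simp; norm_num
  nlinarith [norm_nonneg (-2 + Complex.I : ℂ)]

theorem covered_infl {z : ℂ} (h : ∃ s ∈ TT, ∃ v ∈ T0, s.ev v = z) :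
    ∃ s ∈ TT, ∃ v ∈ T0, s.ev v = infl.cast.ev z := by
  obtain ⟨s, hs, v, hv, rfl⟩ := h
  obtain ⟨k, hk⟩ := TT_matched hs
  obtain ⟨s0, h, hf, rfl⟩ := exists_fam (TT_sim hs) hs hk
  obtain ⟨j, u, hu, e⟩ := cover_pair k h hv
  exact ⟨_, hf.child_mem j, u, hu, by rw [place_ev, e, ev_comp]⟩

theorem covered_small {z : ℂ} (h : ‖z‖ ≤ 2 / 5) : ∃ s ∈ TT, ∃ v ∈ T0, s.ev v = z := by
  have hf : Fam TT true dz.cast := fam_dz.mono (KK_sub 0)
  have h1 := abs_le.1 ((Complex.abs_re_le_norm z).trans h)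
  have h2 := abs_le.1 ((Complex.abs_im_le_norm z).trans h)
  have e : dz.cast.ev ⟨z.re + 6 / 5, z.im + 2 / 5⟩ = z := by
    apply Complex.ext <;> simp [dz, Aff.cast] <;> ring
  rcases rect_sub (z := ⟨z.re + 6 / 5, z.im + 2 / 5⟩) (by simp only; linarith)
    (by simp only; linarith) (by simp only; linarith) (by simp only; linarith) with h3 | ⟨v, hv, h3⟩
  · exact ⟨_, hf.1, _, h3, e⟩
  · exact ⟨_, hf.2.1, v, hv, by rw [partner_ev, ← h3, e]⟩

theorem covered (z : ℂ) : ∃ s ∈ TT, ∃ v ∈ T0, s.ev v = z := by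
  have key : ∀ n : ℕ, ∀ z : ℂ, ‖z‖ ≤ 2 / 5 * 2 ^ n → ∃ s ∈ TT, ∃ v ∈ T0, s.ev v = z := by
    intro n
    induction n with
    | zero => intro z hz; exact covered_small (by simpa using hz)
    | succ n ih =>
      intro z hz
      have hl : (-2 + Complex.I : ℂ) ≠ 0 := by
        intro e; have := congrArg Complex.re e; simp at this
      have e : infl.cast.ev (z / (-2 + Complex.I)) = z := by rw [infl_ev]; field_simp
      rw [← e]
      apply covered_infl
      apply ih
      have := norm_infl (z / (-2 + Complex.I))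
      rw [e] at this
      rw [pow_succ] at hz
      nlinarith [norm_nonneg (z / (-2 + Complex.I))]
  obtain ⟨n, hn⟩ := pow_unbounded_of_one_lt (5 / 2 * ‖z‖) (show (1 : ℝ) < 2 by norm_num)
  exact key n z (by linarith)

theorem TT_locally_finite (r : ℝ) : {s ∈ TT | ‖s.ev g0‖ ≤ r}.Finite := by
  obtain ⟨t, -, ht, hcov⟩ := finite_cover_balls_of_compact (isCompact_closedBall (0 : ℂ) r)
    (show (0 : ℝ) < 1 / 8 by norm_num)
  have : {s ∈ TT | ‖s.ev g0‖ ≤ r} ⊆ ⋃ y ∈ t, {s ∈ TT | s.ev g0 ∈ Metric.ball y (1 / 8)} := by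
    rintro s ⟨h1, h2⟩
    have := hcov (mem_closedBall_zero_iff.2 h2)
    simp only [Set.mem_iUnion] at this ⊢
    obtain ⟨y, hy, h3⟩ := this
    exact ⟨y, hy, h1, h3⟩
  refine (ht.biUnion fun y _ => Set.Subsingleton.finite ?_).subset this
  rintro s ⟨h1, h2⟩ s' ⟨h3, h4⟩
  by_contra hne
  obtain ⟨u, hu⟩ := (TT_sim h1).surjective (s'.ev g0)
  have h5 : ‖u - g0‖ < 1 / 4 := by
    rw [← (TT_sim h1).norm_sub, hu, ← dist_eq_norm]
    have := dist_triangle_right (s'.ev g0) (s.ev g0) y
    rw [Metric.mem_ball] at h2 h4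
    linarith
  exact TT_dis h1 h3 hne u (mem_O0_of_near h5) g0 (O0_sub g0_mem) hu

end Pool.Agent.MP_55cbcc_co
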